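import Pool.Agent.Lib.HQ.Blue

/-! Project hq51: the identity with the gradient term. -/

open scoped Topology ContDiff ComplexOrder Matrix
open Set MeasureTheory Filter

noncomputable section

namespace Pool.Agent.Lib.HQ

open Pool.Agent.Lib.SV (E)
open Pool.Agent.Lib.HS32 Pool.Agent.Lib.HW68

theorem st_QID : St_QID := by
  intro n M _ G T hG hT
  obtain ⟨d1, d2, -⟩ := mDIV n M G hG.toMet
  obtain ⟨i1, i2, i3⟩ := d2 _ (d1 _ (vec_vf M hG.toMet hT.toTen))
  obtain ⟨-, -, -, -, m2, -⟩ := mMU n M G hG.toMet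
  obtain ⟨j1, -, j3, -⟩ := mINV n M G hG.toMet
  obtain ⟨-, -, -, -, -, -, -, -, e3, -⟩ := mHES n M
  obtain ⟨k1, k2, -⟩ := j3 T _ hT.toTen (e3 G hG.toMet).toTen
  set Ψ := M.ev fun e z => dv (fun w => (G e w).det • vf (G e) (T e) w) z / (G e z).det with hΨ
  have r : M.Rep (fun x => (Ψ x).re - 2 * M.ip G T (M.ric G) x)
      fun e z => (n12 (G e z)⁻¹ fun k l => nf (G e) (T e) k l z).re := fun e he z hz => by
    have lG := HS68.met_loc hG.toMet he hz
    have r : Ψ (e.symm z) = _ :=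
      (i1.rep e he z hz).trans (dv_vf lG (HS68.clo_kl hG.toClo he hz) (hT.sm e he z hz))
    have b : M.ip G T (M.ric G) (e.symm z) = _ := k1 e he z hz
    show (Ψ (e.symm z)).re - 2 * M.ip G T (M.ric G) (e.symm z) = _
    rw [r, b, Complex.star_def, Complex.conj_re, Complex.add_re]
    simp only [Complex.mul_re, Complex.re_ofNat, Complex.im_ofNat, zero_mul, sub_zero]
    exact add_sub_cancel_right _ _
  have e : M.y0 G T = fun x => (Ψ x).re - 2 * M.ip G T (M.ric G) x := r.eq_ev.symm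
  refine ⟨e ▸ i2.re.sub (k2.const_mul 2), e ▸ r, ?_, fun κ hκ h x => ?_⟩
  · have p : ∫ x, (Ψ x).re ∂M.mu G = 0 := by
      rw [← Complex.zero_re, ← i3 ‹_›]
      exact integral_re (m2 ℂ _ i2.continuous)
    rw [e, integral_sub (m2 ℝ _ i2.re.continuous) ((m2 ℝ _ k2.continuous).const_mul 2),
      integral_const_mul, p]
    ring
  · obtain ⟨c, hc, hx, h1⟩ := h x
    rw [← e] at r
    rw [r.at hc hx, (j1 T hT.toTen).1.at hc hx]
    exact n12_ge (fun k l => nf (G c) (T c) k l (c x)) (hG.pos.at hc hx).inv.posSemidef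
      (hT.herm.at hc hx) (hκ x) fun v => by rw [quart_nf]; exact h1 v _

end Pool.Agent.Lib.HQ
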