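import Pool.Agent.Lib.HQ.Blue
import Pool.Agent.Lib.KR88.Mean

/-! Project hq51: the volumes. -/

open scoped Topology ComplexOrder Matrix
open Set MeasureTheory Filter Complex

noncomputable section

namespace Pool.Agent.Lib.HQ

open Pool.Agent.Lib.HS32 Pool.Agent.Lib.HS32.Mf Pool.Agent.Lib.HS76 Polynomial

theorem st_QVV : St_QVV := by
  intro n M _ H B hH hB hN
  obtain ⟨-, hf, -, hv, hi, -, hc⟩ := mMU n M H hH.toMet
  have hχ := K88.clo_tw hH hB
  have hT : ∀ t : ℝ, M.Clo (t • H + (B - M.ric H)) := fun t => (hH.toClo.smul t).add hχ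
  have sh : ∀ (ε s : ℝ) p, M.gB H B ε p + s • H = M.gB H B (ε + s) p := fun ε s p => by
    rw [gB, gB, add_smul]
    abel
  have co : ∀ ε p, M.Sm p → ∫ x, M.dq H (M.gB H B ε p) x ∂M.mu H = M.vB H B ε := fun ε p hp => by
    rw [K88.gB_eq, mCOH n M H _ p hH.toMet (hT ε) hp, vB]
  have h1 : ∀ ε p, M.Pot H B ε p → M.vv (M.gB H B ε p) = M.vB H B ε := fun ε p hp => by
    simpa [co ε p hp.sm, vv] using (hc _ hp.kae.toMet).2.1 fun _ => 1
  have h2 : ∀ ε : ℝ, 0 < ε → (ε / 2) ^ n * M.vv H ≤ M.vB H B ε := fun ε hε => by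
    obtain ⟨p, hp⟩ := hN _ (half_pos hε)
    have F := hp.kae.toForm.add (hH.toForm.smul (ε / 2))
    rw [← add_halves ε, ← co _ p hp.sm, ← sh, add_halves, vv, mul_comm, ← smul_eq_mul,
      ← integral_const]
    refine integral_mono (integrable_const _)
      (hi ℝ _ ((mINV n M H hH.toMet).1 _ F.toTen).2.2.2.1.continuous) fun x => ?_
    have k := le_det_of_le (hH.toMet.ev_pos x) (AllOn.ch F.herm x) (half_pos hε).le (by
      rw [← rsm]
      simpa [ev] using (hp.kae.toMet.ev_pos x).posSemidef)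
    have k2 := (AllOn.ch ((mINV n M H hH.toMet).2.1 _ F) x).2.2
    rw [ch_symm] at k2
    rw [k2, Fintype.card_fin] at k
    exact le_of_mul_le_mul_right k (pd_det_re (hH.toMet.ev_pos x))
  have vp : ∀ ε : ℝ, 0 < ε → 0 < M.vB H B ε := fun ε hε =>
    lt_of_lt_of_le (mul_pos (by positivity) hv) (h2 ε hε)
  have ct : Continuous (M.vB H B) := K88.vol_cont hH.toMet hχ.toForm
  refine ⟨h1, h2, ?_, ?_⟩
  · obtain ⟨A, hA⟩ := (isCompact_Icc (a := (0 : ℝ)) (b := 1)).bddAbove_image ct.continuousOn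
    obtain ⟨c, c0, hr, -⟩ := (mBD n M H hH.toMet).1 _ hχ.toForm
    refine ⟨max 1 (max A (M.vv H * ((1 + c) * n))), le_max_left _ _, fun ε hε =>
      ⟨le_max_of_le_right (le_max_of_le_left (hA ⟨ε, Ioc_subset_Icc_self hε, rfl⟩)),
        fun p hp => le_max_of_le_right (le_max_of_le_right ?_)⟩⟩
    have k1 : M.Le (ε • H + (B - M.ric H)) ((1 + c) • H) := by
      rw [add_smul]
      exact (hH.toMet.le_smul hε.2).add hr
    have hs := ((mLAP n M _ _ hp.sm hp.sm).2.2 _ hH.toMet).1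
    have k3 := integral_mono (μ := M.mu H) (g := fun x => (1 + c) * n + M.lap H p x)
      (hi ℝ _ ((mINV n M H hH.toMet).1 _ hp.kae.toTen).2.1.continuous)
      (hi ℝ _ ((sm_const _).add hs).continuous) fun x => by
        have := hH.toMet.tr_mono k1 x
        rw [tr_smul, hH.toMet.tr_self] at this
        beta_reduce
        rw [K88.gB_eq, tr_add, lap]
        linarith
    rwa [integral_add (integrable_const _) (hi ℝ _ hs.continuous), integral_const,
      ((mGRN n M).2 H p p hH hp.sm hp.sm).1, smul_eq_mul, add_zero] at k3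
  obtain ⟨L, hL, hI⟩ := interp_mat n
  have pv : ∀ ε : ℝ, (∑ a : Fin (n + 1), C (M.vB H B ((a : ℝ) + 1)) * L a).eval ε =
      M.vB H B ε := fun ε => by
    have e1 : ∀ x, M.dq H (ε • H + (B - M.ric H)) x = ∑ a : Fin (n + 1),
        (L a).eval ε * M.dq H (((a : ℝ) + 1) • H + (B - M.ric H)) x := fun x =>
      hI (M.ev H x) _ (hH.toMet.ev_pos x) (AllOn.ch hχ.herm x) ε
    conv_rhs => rw [vB]
    simp only [e1]
    rw [integral_finsetSum _ fun a _ =>
      (hi ℝ _ ((mINV n M H hH.toMet).1 _ (hT _).toTen).2.2.2.1.continuous).const_mul _]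
    simp only [eval_finsetSum, eval_mul, eval_C, integral_const_mul, vB, mul_comm]
  obtain ⟨k, hk, c, c0, hl⟩ := ord_exists
    (∑ a : Fin (n + 1), C (M.vB H B ((a : ℝ) + 1)) * L a) fun ε hε => pv ε ▸ vp ε hε
  simp only [pv] at hl
  have kn : k ≤ n :=
    hk.trans (natDegree_sum_le_of_forall_le _ _ fun a _ => (natDegree_C_mul_le _ _).trans (hL a))
  obtain ⟨α, β, hm, hα⟩ := nodes_mat n
  refine ⟨k, kn, fun h0 => Nat.pos_of_ne_zero fun k0 => ?_, ⟨c, c0, hl⟩,
    fun ε => ∑ a, α a * (M.vB H B ((1 + ((a : ℝ) + 1)) * ε) / M.vB H B ε), ?_, fun ε p _ hp => ?_⟩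
  · simp only [k0, pow_zero, div_one] at hl
    exact c0.not_ge (tendsto_nhds_unique ((ct.tendsto 0).mono_left nhdsWithin_le_nhds) hl ▸ h0)
  · rw [(hα k kn).1]
    exact tendsto_finsetSum _ fun a _ => (ord_ratio c0 hl (by positivity)).const_mul _
  have hG := hp.kae.toMet
  have F : ∀ s : ℝ, M.Form (M.gB H B ε p + s • H) := fun s => hG.toForm.add (hH.toForm.smul s)
  have hd : ∀ s : ℝ, ∫ x, M.dq (M.gB H B ε p) (M.gB H B ε p + s • H) x ∂M.mu (M.gB H B ε p) =
      M.vB H B (ε + s) := fun s => by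
    rw [(hc _ hG).2.1, ← co _ p hp.sm, ← sh]
    exact integral_congr_ae (Eventually.of_forall fun x =>
      (((mINV n M H hH.toMet).2.2.2.2.2.2.2 _ hG).2.2.1 _ (F s) x).symm)
  rw [mn, h1 ε p hp]
  generalize M.gB H B ε p = G at *
  have e : ∀ x, ε * M.tr G H x =
      ∑ a, α a * M.dq G (G + ((((a : ℕ) : ℝ) + 1) * ε) • H) x := fun x => by
    have k1 := (hm (M.ev G x) (ε • M.ev H x) (hG.ev_pos x) ((hH.toForm.smul ε).herm.ch x)).1
    simp only [smul_smul, Matrix.mul_smul, Matrix.trace_smul, smul_re, smul_eq_mul] at k1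
    exact k1
  simp only [e]
  rw [integral_finsetSum _ fun a _ => ((mMU n M G hG).2.2.2.2.1 ℝ _
    ((mINV n M G hG).1 _ (F _).toTen).2.2.2.1.continuous).const_mul _, Finset.sum_div]
  refine Finset.sum_congr rfl fun a _ => ?_
  rw [integral_const_mul, hd, mul_div_assoc, add_mul (1 : ℝ), one_mul]

end Pool.Agent.Lib.HQ
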