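import Pool.Agent.Lib.HQ.Blue
import Pool.Agent.Lib.KR88.Mean
import Pool.Agent.Lib.RB.Nef
import Pool.Agent.Lib.HS.All

/-! Project hq51: the family of solutions. -/

open scoped Topology ContDiff ComplexOrder Matrix
open Set MeasureTheory Filter

noncomputable section

namespace Pool.Agent.Lib.HQ

open Pool.Agent.Lib.SV (E)
open Pool.Agent.Lib.HS32 Pool.Agent.Lib.HS32.Mf

theorem st_QWY (hV : St_QVV) : St_QWY := by
  intro n M _ H B hn hH hB hN
  obtain ⟨v1, -⟩ := hV n M H B hH hB hN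
  obtain ⟨C, C0, hC⟩ := K88.phi hH hB
  obtain ⟨D, D0, hD⟩ := K88.base hH hB
  obtain ⟨-, hf, -, hv, hi, -⟩ := mMU n M H hH.toMet
  set m := (M.mu H).real univ
  have p3 : 0 < C ^ 3 := by positivity
  refine ⟨1 + C + D + m + C ^ 3, by linarith, fun ε hε => ?_⟩
  obtain ⟨p, hp⟩ := hN ε hε.1
  obtain ⟨u, u1, u2, u3⟩ := RB.solve HS.asAUBIN hn hH.toMet (T := ε • H + B) hp.sm hp.kae
  have hu : M.SolB H B ε u := ⟨u1, u2, u3⟩
  obtain ⟨a, hP, ha⟩ := hC ε hε u hu
  obtain ⟨y, hy⟩ := u1.exists_max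
  have e1 := v1 ε u ⟨u1, u2⟩
  have V0 : 0 < M.vB H B ε := e1 ▸ (mMU n M _ u2.toMet).2.2.2.1
  have e2 : M.dn H (M.gB H B ε u) = fun x => Real.exp (u x) / M.vB H B ε := funext fun x => by
    rw [dn, e1, hu.det]
  change _ ≤ C * M.vB H B ε at ha
  have e3 : ∀ b x, Real.exp (u x) = Real.exp (u x - b) * Real.exp b := fun b x => by
    rw [← Real.exp_add, sub_add_cancel]
  have a4 : M.vB H B ε ≤ m * Real.exp (u y) := by
    have h2 := integral_mono (μ := M.mu H) (hi ℝ _ u1.exp.continuous)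
      (integrable_const (Real.exp (u y))) fun x => Real.exp_le_exp.2 (hy x)
    rwa [K88.mass hH hB hu, integral_const] at h2
  refine ⟨u, fun x => u x - u y, hu, u1.sub (sm_const _), fun x => sub_nonpos.2 (hy x),
    ⟨y, sub_self _⟩, fun e he z hz => ?_, fun x => ?_, fun x => ?_, ?_⟩
  · have h1 := (mLAP n M u _ u1 (sm_const (u y))).1 (u y) e he z hz
    have h2 := ((hD ε hε u hu).1.trans ((hH.toMet.le_smul
      (show D ≤ 1 + C + D + m + C ^ 3 by linarith)).add (Le.refl (M.hs u)))) e he z hz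
    simp only [Pi.add_apply] at h2 ⊢
    rwa [h1.2.2.1, h1.1, sub_zero (M.hs u e z)]
  · rw [e2, div_le_iff₀ V0, e3 (u y) x, mul_right_comm, mul_comm]
    refine mul_le_mul_of_nonneg_right (((Real.exp_le_exp.2 (hP.le y)).trans ha).trans ?_)
      (Real.exp_pos _).le
    exact mul_le_mul_of_nonneg_right (by linarith) V0.le
  · rw [e2, ← mul_div_assoc, le_div_iff₀ V0, e3 (u y) x, mul_left_comm]
    refine mul_le_mul_of_nonneg_left (a4.trans ?_) (Real.exp_pos _).le
    exact mul_le_mul_of_nonneg_right (by linarith) (Real.exp_pos _).le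
  · have c1 : ∀ x, ContDiffAt ℝ ∞ (fun s => Real.exp s / M.vB H B ε) (u x) :=
      fun x => (Real.contDiff_exp.contDiffAt).div_const _
    have s2 := u1.comp c1
    have q := fun f g hf hg => (mLAP n M f g hf hg).2.2 H hH.toMet
    have h3 : ∀ x, M.gr H (fun x => Real.exp (u x) / M.vB H B ε)
        (fun x => Real.exp (u x) / M.vB H B ε) x =
        (Real.exp (u x) / M.vB H B ε) ^ 2 * M.gr H u u x := fun x => by
      rw [((q u _ u1 s2).2.2.2.1 _ c1 x).2, ((q u _ u1 s2).2.2.1 x 0).2.2.2.2.2.1,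
        ((q u _ u1 u1).2.2.2.1 _ c1 x).2, ((Real.hasDerivAt_exp (u x)).div_const _).deriv]
      ring
    rw [e2]
    have h4 := integral_mono (μ := M.mu H) (hi ℝ _ (q _ _ s2 s2).2.1.continuous)
      ((hi ℝ _ ((u1.sub (sm_const a)).exp.mul (q _ _ u1 u1).2.1).continuous).const_mul (C ^ 2))
      fun x => by
        beta_reduce
        rw [h3, ← mul_assoc]
        refine mul_le_mul_of_nonneg_right ?_ ((q u u u1 u1).2.2.1 x 0).2.2.2.2.2.2.1
        have b1 : Real.exp (u x) / M.vB H B ε ≤ C * Real.exp (u x - a) := by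
          rw [div_le_iff₀ V0, e3 a x, mul_right_comm, mul_comm]
          exact mul_le_mul_of_nonneg_right ha (Real.exp_pos _).le
        have b2 : Real.exp (u x - a) ≤ 1 := Real.exp_le_one_iff.2 (sub_nonpos.2 (hP.le x))
        have b3 := Real.exp_pos (u x - a)
        refine (pow_le_pow_left₀ (by positivity) b1 2).trans ?_
        rw [mul_pow]
        exact mul_le_mul_of_nonneg_left (by nlinarith) (by positivity)
    rw [integral_const_mul] at h4
    have h5 := mul_le_mul_of_nonneg_left hP.grad (sq_nonneg C)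
    refine h4.trans (h5.trans ?_)
    nlinarith

end Pool.Agent.Lib.HQ
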