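import Pool.Agent.Lib.HQ.Blue
import Pool.Agent.Lib.HS76.Diag

/-! Project hq51: the metrics of small energy. -/

open scoped Topology ContDiff ComplexOrder Matrix
open Set MeasureTheory Filter

noncomputable section

namespace Pool.Agent.Lib.HQ

open Pool.Agent.Lib.SV (E)
open Pool.Agent.Lib.HS32 Pool.Agent.Lib.HS32.Mf

namespace Q51

theorem energy {X : Type} [TopologicalSpace X] [MeasurableSpace X] {μ : Measure X}
    (hi : ∀ f : X → ℝ, Continuous f → Integrable f μ) {m m' s s' R : X → ℝ} {N δ a : ℝ}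
    (cm : Continuous m) (cm' : Continuous m') (cs : Continuous s) (cs' : Continuous s')
    (cR : Continuous R) (hN : 1 ≤ N) (d0 : 0 < δ) (d1 : δ ≤ 1 / 2) (ha : a ≤ δ ^ 2)
    (m0 : ∀ x, 0 ≤ m x) (m0' : ∀ x, 0 ≤ m' x) (m1 : ∫ x, m x ∂μ = 1) (s0 : ∀ x, 0 ≤ s x)
    (s0' : ∀ x, 0 ≤ s' x) (hR : 0 ≤ ∫ x, m x * R x ∂μ)
    (hp : ∀ x c, R x + δ / N * s x ^ 2 ≤ (1 + a - 2 * c) * s x + (1 + 2 * δ) * (c ^ 2 * s' x))
    (hθ : ∫ x, |m x - m' x| ∂μ ≤ δ ^ 5) (hσ : ∫ x, m' x * s' x ∂μ ≤ 2 * N) :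
    ∫ x, m x * R x ∂μ + δ / N * ∫ x, m x * s x ^ 2 ∂μ ≤
      ∫ x, m' x * s' x ∂μ - ∫ x, m x * s x ∂μ + 15 * N ^ 2 * δ := by
  have N0 : 0 < N := one_pos.trans_le hN
  have iR := hi (fun x => m x * R x) (cm.mul cR)
  have iQ := hi (fun x => m x * s x ^ 2) (cm.mul (cs.pow 2))
  have iS := hi (fun x => m x * s x) (cm.mul cs)
  have i1 := hi m cm
  have yg : ∀ x, 2 * s x ≤ δ / N / 2 * s x ^ 2 + 2 * N / δ := fun x => by
    rw [← sub_nonneg, show δ / N / 2 * s x ^ 2 + 2 * N / δ - 2 * s x =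
      (δ * s x - 2 * N) ^ 2 / (2 * N * δ) by field_simp; ring]
    positivity
  have a1 : a ≤ 1 := by nlinarith
  have k1 := integral_mono (iS.const_mul 2) ((iQ.const_mul (δ / N / 2)).add
    (i1.const_mul (2 * N / δ))) fun x => by
      simp only [Pi.add_apply]
      nlinarith [mul_le_mul_of_nonneg_left (yg x) (m0 x)]
  have k2 := integral_mono (iR.add (iQ.const_mul (δ / N))) (iS.const_mul 2) fun x => by
    simp only [Pi.add_apply]
    have h1 := hp x 0
    have h2 := mul_le_mul_of_nonneg_right a1 (s0 x)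
    nlinarith [mul_le_mul_of_nonneg_left (show R x + δ / N * s x ^ 2 ≤ 2 * s x by nlinarith) (m0 x)]
  obtain ⟨L, hL⟩ : ∃ L, L = (δ ^ 4)⁻¹ := ⟨_, rfl⟩
  have L0 : 0 < L := by rw [hL]; positivity
  have p0 : ∀ x, 0 < L + s' x := fun x => add_pos_of_pos_of_nonneg L0 (s0' x)
  have cF : Continuous fun x => L / (L + s' x) * s' x :=
    (continuous_const.div (continuous_const.add cs') fun x => (p0 x).ne').mul cs'
  have c1 : ∀ x, L / (L + s' x) ≤ 1 := fun x => (div_le_one (p0 x)).2 (by linarith [s0' x])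
  have iF := hi (fun x => m x * (L / (L + s' x) * s' x)) (cm.mul cF)
  have k3 := integral_mono iF ((hi _ (cm'.mul cs')).add
    ((hi _ (cm.sub cm').abs).const_mul L)) fun x => by
      simp only [Pi.add_apply, Pi.mul_apply, Pi.sub_apply]
      have f0 : 0 ≤ L / (L + s' x) * s' x := mul_nonneg (div_pos L0 (p0 x)).le (s0' x)
      have f1 : L / (L + s' x) * s' x ≤ s' x := mul_le_of_le_one_left (s0' x) (c1 x)
      have f2 : L / (L + s' x) * s' x ≤ L := by
        rw [div_mul_eq_mul_div, div_le_iff₀ (p0 x)]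
        nlinarith
      nlinarith [mul_le_mul_of_nonneg_left f1 (m0' x), mul_le_mul_of_nonneg_right
        (le_abs_self (m x - m' x)) f0, mul_le_mul_of_nonneg_left f2 (abs_nonneg (m x - m' x))]
  have k4 := integral_mono (iR.add (iQ.const_mul (δ / N))) (((iS.const_mul (a - 1)).add
    (iQ.const_mul (δ ^ 3))).add (iF.const_mul (1 + 3 * δ))) fun x => by
      simp only [Pi.add_apply]
      have h1 := hp x (L / (L + s' x))
      have h2 := c1 x
      have h3 := (div_pos L0 (p0 x)).le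
      have h4 : (1 - L / (L + s' x)) = δ ^ 4 * (L / (L + s' x) * s' x) := by
        have h9 : δ ^ 4 * L = 1 := by rw [hL, mul_inv_cancel₀ (by positivity)]
        rw [div_mul_eq_mul_div, ← mul_div_assoc, ← mul_assoc, h9, one_mul, one_sub_div (p0 x).ne',
          add_sub_cancel_left]
      generalize L / (L + s' x) = c at *
      have h5 : c ^ 2 * s' x ≤ c * s' x := mul_le_mul_of_nonneg_right (by nlinarith) (s0' x)
      have h6 : 2 * (1 - c) * s x ≤ δ ^ 3 * s x ^ 2 + δ * (c * s' x) := by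
        have d3 : 0 < δ ^ 3 := by positivity
        refine le_of_mul_le_mul_left ?_ d3
        have h7 : (1 - c) ^ 2 ≤ δ ^ 4 * (c * s' x) := by nlinarith
        nlinarith [sq_nonneg (δ ^ 3 * s x - (1 - c))]
      have h8 : R x + δ / N * s x ^ 2 ≤
          (a - 1) * s x + δ ^ 3 * s x ^ 2 + (1 + 3 * δ) * (c * s' x) := by
        nlinarith [mul_le_mul_of_nonneg_left h5 (show 0 ≤ 1 + 2 * δ by positivity)]
      nlinarith [mul_le_mul_of_nonneg_left h8 (m0 x)]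
  simp only [Pi.add_apply, Pi.mul_apply, Pi.sub_apply] at k1 k2 k3 k4
  rw [integral_add (iQ.const_mul _) (i1.const_mul _)] at k1
  rw [integral_add iR (iQ.const_mul _)] at k2 k4
  rw [integral_add (hi (fun x => m' x * s' x) (cm'.mul cs'))
    ((hi (fun x => |m x - m' x|) (cm.sub cm').abs).const_mul L)] at k3
  rw [integral_add (f := fun x => (a - 1) * (m x * s x) + δ ^ 3 * (m x * s x ^ 2))
    ((iS.const_mul _).add (iQ.const_mul _)) (iF.const_mul _),
    integral_add (iS.const_mul _) (iQ.const_mul _)] at k4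
  simp only [integral_const_mul, m1] at k1 k2 k3 k4
  have S0 : 0 ≤ ∫ x, m x * s x ∂μ := integral_nonneg fun x => mul_nonneg (m0 x) (s0 x)
  have k5 : L * ∫ x, |m x - m' x| ∂μ ≤ δ := (mul_le_mul_of_nonneg_left hθ L0.le).trans_eq (by
    rw [hL]; field_simp)
  generalize ∫ x, m x * s x ∂μ = σ at *
  generalize ∫ x, m x * s x ^ 2 ∂μ = Q at *
  generalize ∫ x, m' x * s' x ∂μ = σ' at *
  generalize ∫ x, m x * R x ∂μ = r at *
  have e1 : δ * (2 * N / δ) = 2 * N := by field_simp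
  have e2 : N * (δ / N) = δ := by field_simp
  have k6 : δ / N * Q ≤ 2 * (2 * N / δ) := by linarith
  have k7 : δ * σ ≤ 2 * N := by nlinarith
  have k8 : δ ^ 2 * Q ≤ 4 * N ^ 2 := by
    have := mul_le_mul_of_nonneg_left k6 (mul_pos d0 N0).le
    rw [show δ * N * (δ / N * Q) = δ * (N * (δ / N)) * Q by ring, e2,
      show δ * N * (2 * (2 * N / δ)) = 2 * N * (δ * (2 * N / δ)) by ring, e1] at this
    linarith
  have k9 := mul_le_mul_of_nonneg_left (k3.trans (add_le_add le_rfl k5))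
    (show 0 ≤ 1 + 3 * δ by positivity)
  have b1 : a * σ ≤ δ * (2 * N) :=
    (mul_le_mul_of_nonneg_right ha S0).trans (by nlinarith)
  have b2 := mul_le_mul_of_nonneg_left k8 d0.le
  have b3 := mul_le_mul_of_nonneg_left hσ d0.le
  have b4 : δ * N ≤ δ * N ^ 2 := mul_le_mul_of_nonneg_left (by nlinarith) d0.le
  have b5 : δ ≤ δ * N := le_mul_of_one_le_right d0.le hN
  nlinarith

theorem sq_mat {n : ℕ} {A T B : Mat n} (hA : A.PosDef) (hT : T.PosDef) (hB : B.PosSemidef)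
    (c : ℝ) : 2 * c * (A⁻¹ * B).trace.re - c ^ 2 * (T⁻¹ * B).trace.re ≤
      (A⁻¹ * B * A⁻¹ * T).trace.re := by
  have h1 := hT.posSemidef.mul_mul_conjTranspose_same (A⁻¹ - c • T⁻¹)
  rw [(hA.inv.1.sub (herm_rsmul hT.inv.1 c)).eq] at h1
  have h2 := (Complex.le_def.1 (HS76.tr_mul_nonneg h1 hB)).1
  have h3 := Matrix.nonsing_inv_mul T (pd_det_ne hT).isUnit
  have h4 := Matrix.mul_nonsing_inv T (pd_det_ne hT).isUnit
  have h5 : (A⁻¹ - c • T⁻¹) * T * (A⁻¹ - c • T⁻¹) * B =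
      A⁻¹ * T * (A⁻¹ * B) - c • (A⁻¹ * B) - c • (A⁻¹ * B) + (c * c) • (T⁻¹ * B) := by
    simp only [Matrix.sub_mul, Matrix.mul_sub, Matrix.smul_mul, Matrix.mul_smul, h3, smul_smul,
      Matrix.one_mul, Matrix.mul_assoc A⁻¹ T T⁻¹, h4, Matrix.mul_one, smul_sub,
      Matrix.mul_assoc _ A⁻¹ B]
    abel
  rw [h5, Matrix.trace_add, Matrix.trace_sub, Matrix.trace_sub, Matrix.trace_mul_comm,
    ← mul_assoc] at h2
  simp only [Complex.add_re, Complex.sub_re, Complex.zero_re, Matrix.trace_smul, Complex.smul_re,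
    smul_eq_mul] at h2
  linarith

variable {n : ℕ} {M : Mf n} {H B h G A : M.Fam (Mat n)}

theorem pt (hG : M.Met G) (hh : M.Met h) {C t lam : ℝ} (C0 : 0 < C) (hn : 0 < n)
    (hle : M.Le h (C • H)) (ht : 0 ≤ t)
    (hr : M.All fun e z => M.ric G e z = (A + t • H + B - lam • G) e z) (x : M.X) :
    -M.ip G h (M.ric G) x + M.ip G h B x + t / (n * C) * M.tr G h x ^ 2 + M.ip G h A x ≤
      lam * M.tr G h x := by
  have h1 := (hh.ev_pos x).posSemidef.mul_mul_conjTranspose_same (M.ev G x)⁻¹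
  rw [(hG.ev_pos x).inv.1.eq] at h1
  have h2 : M.ip G h h x ≤ M.ip G h (C • H) x := HS76.tr_mul_mono h1 (AllOn.ch hle x)
  have h3 := HS76.tr_sq_le (hG.ev_pos x) (hh.ev_pos x).1
  rw [← Matrix.mul_assoc, Fintype.card_fin] at h3
  change M.tr G h x ^ 2 ≤ n * M.ip G h h x at h3
  have n0 : (0 : ℝ) < n := Nat.cast_pos.2 hn
  rw [ip_smul] at h2
  have h4 : t / (n * C) * M.tr G h x ^ 2 ≤ t * M.ip G h H x := by
    rw [div_mul_eq_mul_div, mul_div_assoc]
    refine mul_le_mul_of_nonneg_left ((div_le_iff₀ (by positivity)).2 ?_) ht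
    nlinarith
  rw [ip_congr (G' := G) (S' := h) (fun _ _ _ _ => rfl) (fun _ _ _ _ => rfl) hr, ip_sub, ip_add,
    ip_add, ip_smul, ip_smul, hG.ip_self]
  linarith

variable [M.Cpt]

theorem mn_eq (hH : M.Met H) (hG : M.Met G) (f : M.X → ℝ) :
    M.mn G f = ∫ x, M.dn H G x * f x ∂M.mu H := by
  rw [mn, ((mMU n M H hH).2.2.2.2.2.2 G hG).2.1, ← integral_div]
  simp only [dn, div_mul_eq_mul_div]

theorem dn_sm (hH : M.Met H) (hG : M.Met G) : M.Sm (M.dn H G) :=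
  ((mINV n M H hH).1 G hG.toTen).2.2.2.1.div (sm_const _) fun _ => (mMU n M G hG).2.2.2.1.ne'

theorem dn_pos (hH : M.Met H) (hG : M.Met G) (x : M.X) : 0 < M.dn H G x :=
  div_pos (((mINV n M H hH).2.2.2.2.2.2.2 G hG).1 x) (mMU n M G hG).2.2.2.1

theorem dn_one (hH : M.Met H) (hG : M.Met G) : ∫ x, M.dn H G x ∂M.mu H = 1 := by
  have := mn_eq hH hG fun _ => 1
  simp only [mul_one, mn, integral_const, smul_eq_mul] at this
  rw [← this]
  exact div_self (mMU n M G hG).2.2.2.1.ne'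

theorem wy_mono (hH : M.Met H) {C D ε : ℝ} {w φ : M.X → ℝ} (h : M.Wy H B C ε w φ) (hD : C ≤ D) :
    M.Wy H B D ε w φ :=
  ⟨h.sol, h.sm, h.np, h.zer, h.psh.trans ((hH.le_smul hD).add (Le.refl _)), fun x =>
    (h.up x).trans (mul_le_mul_of_nonneg_right hD (Real.exp_pos _).le), fun x => (h.low x).trans
      (mul_le_mul_of_nonneg_right hD (dn_pos hH h.sol.kae.toMet x).le), h.grad.trans hD⟩

/-- The mean of the Ricci term. -/
theorem mean_R (hI : St_QID) (hH : M.Met H) (hG : M.Kae G) (hh : M.Met h) (hB : M.Ten B)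
    (ε : ℝ) : ∫ x, M.dn H G x * (ε * (-M.ip G h (M.ric G) x + M.ip G h B x)) ∂M.mu H =
      M.mn G (fun x => ε * M.y0 G h x) / 2 + M.mn G (fun x => ε * M.ip G h B x) := by
  have j := fun T hT => (mMU n M G hG.toMet).2.2.2.2.1 ℝ _
    ((mINV n M G hG.toMet).2.2.1 h T hh.toTen hT).2.1.continuous
  rw [← mn_eq hH hG.toMet]
  simp only [mn, integral_const_mul]
  rw [integral_add (f := fun x => -M.ip G h (M.ric G) x)
    (j _ ((mHES n M).2.2.2.2.2.2.2.2.1 G hG.toMet).toTen).neg (j _ hB), integral_neg,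
    (hI n M G h hG hh.toForm).2.2.1]
  ring

theorem mn_nonneg (hH : M.Met H) (hG : M.Met G) {f : M.X → ℝ} (hf : ∀ x, 0 ≤ f x) :
    0 ≤ M.mn G f := by
  rw [mn_eq hH hG]
  exact integral_nonneg fun x => mul_nonneg (dn_pos hH hG x).le (hf x)

theorem l1_tri (hH : M.Met H) {f g k : M.X → ℝ} (hf : Continuous f) (hg : Continuous g)
    (hk : Continuous k) : M.l1 H f k ≤ M.l1 H f g + M.l1 H g k := by
  have hi := (mMU n M H hH).2.2.2.2.1 ℝ
  rw [l1, l1, l1, ← integral_add (hi (fun x => |f x - g x|) (hf.sub hg).abs)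
    (hi (fun x => |g x - k x|) (hg.sub hk).abs)]
  exact integral_mono (hi _ (hf.sub hk).abs) ((hi _ (hf.sub hg).abs).add (hi _ (hg.sub hk).abs))
    fun x => abs_sub_le _ _ _

end Q51

open Q51 in
theorem st_QSQ (hI : St_QID) (hRE : St_QRE) (hWY : St_QWY) (hSA : St_QSA) : St_QSQ := by
  intro n M _ H B h l hn hH hB B0 hN hh hD hl
  have hM := hH.toMet
  obtain ⟨C, C1, hC⟩ := hWY n M H B hn hH hB hN
  choose! w φ hw using hC
  obtain ⟨c, c0, hc, -⟩ := (mBD n M H hM).1 h hh.toForm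
  have hc1 : M.Le h ((c + 1) • H) := hc.trans (hM.le_smul (by linarith))
  have n1 : (1 : ℝ) ≤ n := Nat.one_le_cast.2 hn
  obtain ⟨N, hNe⟩ : ∃ N : ℝ, N = n * (c + 1) := ⟨_, rfl⟩
  have N1 : 1 ≤ N := hNe ▸ one_le_mul_of_one_le_of_one_le n1 (by linarith)
  have N0 : 0 < N := one_pos.trans_le N1
  have hi := (mMU n M H hM).2.2.2.2.1 ℝ
  have ev : ∀ᶠ ε in (l : Filter ℝ), ε ∈ Ioc (0 : ℝ) 1 := hl (Ioc_mem_nhdsGT one_pos)
  have re := hRE n M H ℝ l (fun ε => M.dn H (M.gB H B ε (w ε))) C hM (ev.mono fun ε hε => by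
    have g := (hw ε hε).sol.kae.toMet
    refine ⟨dn_sm hM g, fun x => ?_, (hw ε hε).grad⟩
    rw [abs_of_pos (dn_pos hM g x)]
    exact ((hw ε hε).up x).trans (mul_le_of_le_one_right (by linarith)
      (Real.exp_le_one_iff.2 ((hw ε hε).np x))))
  have y0 : ∀ {G ε}, M.Kae G → 0 < ε → 0 ≤ M.mn G (fun x => ε * M.y0 G h x) ∧
      0 ≤ M.mn G (fun x => ε * M.ip G h B x) := fun {G ε} hG hε => by
    refine ⟨mn_nonneg hM hG.toMet fun x => mul_nonneg hε.le ?_,
      mn_nonneg hM hG.toMet fun x => mul_nonneg hε.le ?_⟩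
    · simpa using (hI n M G h hG hh.toForm).2.2.2 0 (fun _ => le_rfl) hD x
    · have h1 := (hh.ev_pos x).posSemidef.mul_mul_conjTranspose_same (M.ev G x)⁻¹
      rw [(hG.toMet.ev_pos x).inv.1.eq] at h1
      exact (Complex.le_def.1 (HS76.tr_mul_nonneg h1 (by simpa [Mf.ev] using AllOn.ch B0 x))).1
  have ct : ∀ {G} (ε : ℝ), M.Met G → Continuous fun x => ε * M.tr G h x := fun {G} ε hG =>
    continuous_const.mul ((mINV n M G hG).1 h hh.toTen).2.1.continuous
  have cR : ∀ {G} (ε : ℝ), M.Met G →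
      Continuous fun x => ε * (-M.ip G h (M.ric G) x + M.ip G h B x) := fun {G} ε hG =>
    continuous_const.mul (((mINV n M G hG).2.2.1 h _ hh.toTen
      ((mHES n M).2.2.2.2.2.2.2.2.1 G hG).toTen).2.1.continuous.neg.add
      ((mINV n M G hG).2.2.1 h _ hh.toTen hB.toTen).2.1.continuous)
  have p3 : 0 < N ^ 3 := by positivity
  refine ⟨3 * C + 16 * N ^ 3, w, φ, by linarith, fun ε hε => wy_mono hM (hw ε hε) (by linarith),
    re, fun δ₀ hδ₀ => ?_⟩
  obtain ⟨δ, d0, d1, d2⟩ : ∃ δ : ℝ, 0 < δ ∧ δ ≤ 1 / 2 ∧ 32 * N ^ 2 * δ ≤ δ₀ :=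
    ⟨min (1 / 2) (δ₀ / (32 * N ^ 2)), by positivity, min_le_left _ _,
      (le_div_iff₀' (by positivity)).1 (min_le_right _ _)⟩
  have t0 : 0 < δ ^ 5 / 3 := by positivity
  have t1 : δ ^ 5 / 3 ≤ δ ^ 2 := by
    have := pow_le_pow_of_le_one d0.le (by linarith) (show 2 ≤ 5 by norm_num)
    linarith
  obtain ⟨I, hIl, hI3⟩ := re _ t0
  set Fam : Set ℝ := {σ | ∃ ε ∈ I, ε ∈ Ioc (0 : ℝ) 1 ∧ ∃ p, M.Pot H B ε p ∧
    M.l1 H (M.dn H (M.gB H B ε p)) (M.dn H (M.gB H B ε (w ε))) ≤ δ ^ 5 / 3 ∧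
    σ = ∫ x, M.dn H (M.gB H B ε p) x * (ε * M.tr (M.gB H B ε p) h x) ∂M.mu H}
  have bdd : BddBelow Fam := ⟨0, fun σ ⟨ε, _, hε, p, hp, _, e⟩ => e ▸ integral_nonneg fun x =>
    mul_nonneg (dn_pos hM hp.kae.toMet x).le
      (mul_nonneg hε.1.le (hp.kae.toMet.tr_nonneg hh.nonneg x))⟩
  obtain ⟨ε₀, e1, e2⟩ := (ev.and (show ∀ᶠ ε in (l : Filter ℝ), ε ∈ I from hIl)).exists
  have hu := (hw ε₀ e1).sol
  have mem : _ ∈ Fam := ⟨ε₀, e2, e1, w ε₀, ⟨hu.sm, hu.kae⟩, by simpa [l1] using t0.le, rfl⟩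
  have up : sInf Fam ≤ N := by
    refine (csInf_le bdd mem).trans ?_
    have hr : M.All fun e z => M.ric (M.gB H B ε₀ (w ε₀)) e z =
        (0 + ε₀ • H + B - (1 : ℝ) • M.gB H B ε₀ (w ε₀)) e z := fun e he z hz => by
      have h := ((mHES n M).2.2.2.2.2.2.2.2.2 _ H hu.kae.toMet hM).2 e he z hz
      simp only [hu.det, Real.log_exp] at h
      beta_reduce
      rw [h]
      simp only [gB, Pi.add_apply, Pi.sub_apply, zero_add, one_smul]
      abel
    have hG := hu.kae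
    generalize M.gB H B ε₀ (w ε₀) = G at *
    have cm := (dn_sm hM hG.toMet).continuous
    have k := integral_mono ((hi _ (cm.mul (ct ε₀ hG.toMet))).add
      ((hi _ (cm.mul (cR ε₀ hG.toMet))))) ((hi _ cm).const_mul N) fun x => by
        simp only [Pi.add_apply, Pi.mul_apply]
        have h1 := pt hG.toMet hh (by linarith) hn hc1 e1.1.le hr x
        rw [← hNe, ← zero_smul ℝ H, ip_smul, zero_mul, add_zero, one_mul] at h1
        have h2 := mul_le_mul_of_nonneg_left h1 e1.1.le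
        have h3 : 2 * (ε₀ * M.tr G h x) ≤ ε₀ * (ε₀ / N * M.tr G h x ^ 2) + N := by
          rw [← sub_nonneg, show ε₀ * (ε₀ / N * M.tr G h x ^ 2) + N - 2 * (ε₀ * M.tr G h x) =
            (ε₀ * M.tr G h x - N) ^ 2 / N by field_simp; ring]
          positivity
        rw [← mul_add, mul_comm N]
        exact mul_le_mul_of_nonneg_left (by linarith) (dn_pos hM hG.toMet x).le
    simp only [Pi.add_apply, Pi.mul_apply] at k
    rw [integral_add (hi _ (cm.fun_mul (ct ε₀ hG.toMet))) (hi _ (cm.fun_mul (cR ε₀ hG.toMet))),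
      mean_R hI hM hG hh hB.toTen, integral_const_mul, dn_one hM hG.toMet] at k
    linarith [(y0 hG e1.1).1, (y0 hG e1.1).2]
  obtain ⟨σ, ⟨ε, f1, f2, p, hp, f3, rfl⟩, f4⟩ := exists_lt_of_csInf_lt ⟨_, mem⟩
    (lt_add_of_pos_right (sInf Fam) d0)
  filter_upwards [ev, hIl, hl (hSA n M H B C ε δ _ p hn hH hB hN C1 f2.1 hp ⟨d0, d1⟩ t0)]
    with ε' g1 g2 g3
  obtain ⟨a, P, a0, a1, a2, hP, hr, a3, a4⟩ := g3 _ _ (hw ε' g1)
  have low := csInf_le bdd (show _ ∈ Fam from ⟨ε', g2, g1, P, hP, a4, rfl⟩)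
  have hG := hP.kae
  have hg := hp.kae
  have c1 := (dn_sm hM hG.toMet).continuous
  have c2 := (dn_sm hM hg.toMet).continuous
  have c3 := (dn_sm hM (hw ε' g1).sol.kae.toMet).continuous
  have c4 := (dn_sm hM (hw ε f2).sol.kae.toMet).continuous
  have mR := mean_R hI hM hG hh hB.toTen ε'
  obtain ⟨z1, z2⟩ := y0 hG g1.1
  have k := energy hi c1 c2 (ct ε' hG.toMet) (ct ε hg.toMet) (cR ε' hG.toMet) N1 d0 d1
    (a1.trans t1) (fun x => (dn_pos hM hG.toMet x).le) (fun x => (dn_pos hM hg.toMet x).le)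
    (dn_one hM hG.toMet) (fun x => mul_nonneg g1.1.le (hG.toMet.tr_nonneg hh.nonneg x))
    (fun x => mul_nonneg f2.1.le (hg.toMet.tr_nonneg hh.nonneg x)) (by rw [mR]; linarith)
    (fun x r => by
      have h1 := pt hG.toMet hh (by linarith) hn hc1 (mul_pos d0 g1.1).le hr x
      have h2 : 2 * (r / a) * M.tr _ h x - (r / a) ^ 2 * M.tr _ h x ≤ M.ip _ h _ x :=
        sq_mat (hG.toMet.ev_pos x) (hg.toMet.ev_pos x) (hh.ev_pos x).posSemidef (r / a)
      have h3 := hg.toMet.tr_nonneg hh.nonneg x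
      rw [← hNe, ip_smul] at h1
      generalize M.tr (M.gB H B ε p) h x = S' at *
      generalize M.tr (M.gB H B ε' P) h x = S at *
      have h4 := mul_le_mul_of_nonneg_left h2 a0.le
      rw [show a * (2 * (r / a) * S - (r / a) ^ 2 * S') = 2 * r * S - r ^ 2 * S' / a by
        field_simp] at h4
      have h5 : ε' * (r ^ 2 * S' / a) ≤ (1 + 2 * δ) * (r ^ 2 * (ε * S')) := by
        rw [← mul_div_assoc, div_le_iff₀ a0]
        nlinarith [mul_le_mul_of_nonneg_right a2 (mul_nonneg (sq_nonneg r) h3)]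
      have h6 := mul_le_mul_of_nonneg_left (show _ ≤ (1 + a) * S - (2 * r * S - r ^ 2 * S' / a)
        from le_sub_iff_add_le.2 ((add_le_add le_rfl h4).trans h1)) g1.1.le
      have e : δ / N * (ε' * S) ^ 2 = ε' * (δ * ε' / N * S ^ 2) := by ring
      rw [e]
      linarith)
    (by
      have b1 := l1_tri hM c1 c3 c2
      have b2 := l1_tri hM c3 c4 c2
      have b3 := hI3 ε' g2 ε f1
      have b4 : M.l1 H (M.dn H (M.gB H B ε (w ε))) (M.dn H (M.gB H B ε p)) ≤ δ ^ 5 / 3 := by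
        simpa only [l1, abs_sub_comm] using f3
      change M.l1 H _ _ ≤ _
      linarith)
    (by linarith)
  rw [mR, ← mn_eq hM hG.toMet fun x => (ε' * M.tr (M.gB H B ε' P) h x) ^ 2] at k
  have z3 := mn_nonneg hM hG.toMet fun x => sq_nonneg (ε' * M.tr (M.gB H B ε' P) h x)
  have z4 := mul_nonneg (div_pos d0 N0).le z3
  have z5 : δ ≤ N ^ 2 * δ := le_mul_of_one_le_left d0.le (one_le_pow₀ N1)
  refine ⟨P, hP, by linarith, by linarith, ?_, fun x => (a3 x).trans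
    (mul_le_mul_of_nonneg_right (by linarith) (dn_pos hM hG.toMet x).le), ?_⟩
  · have z6 : δ / N * M.mn (M.gB H B ε' P) (fun x => (ε' * M.tr (M.gB H B ε' P) h x) ^ 2) ≤
        δ / N * (16 * N ^ 3) := by
      rw [show δ / N * (16 * N ^ 3) = 16 * (N ^ 2 * δ) by field_simp]
      linarith
    linarith [le_of_mul_le_mul_left z6 (div_pos d0 N0)]
  · nlinarith

end Pool.Agent.Lib.HQ
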