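import Pool.Agent.Lib.HQ.B_QID
import Pool.Agent.Lib.HW68.Pull
import Pool.Agent.Lib.HS76.Diag

/-! Project hq51: the gradient of the trace. -/

open scoped Topology ContDiff ComplexOrder Matrix
open Set MeasureTheory Filter

noncomputable section

namespace Pool.Agent.Lib.HQ

open Pool.Agent.Lib.SV (E)
open Pool.Agent.Lib.HS32 Pool.Agent.Lib.HW68 Pool.Agent.Lib.HS76

namespace Q68

variable {n : ℕ}

/-- The squared norm of a form of type `(1,0)`. -/
def qf (C : Mat n) (c : Fin n → ℂ) : ℝ := (∑ k, ∑ l, C k l * (star (c l) * c k)).re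

theorem qf_nonneg {C : Mat n} (h : C.PosSemidef) (c : Fin n → ℂ) : 0 ≤ qf C c := by
  have h1 := (Complex.nonneg_iff.1 (h.dotProduct_mulVec_nonneg (star c))).1
  refine h1.trans_eq (congrArg Complex.re ?_)
  simp only [star_star, dotProduct, Matrix.mulVec, Pi.star_apply, Finset.mul_sum]
  exact Finset.sum_congr rfl fun a _ => Finset.sum_congr rfl fun b _ => by ring

theorem qf_le {C C' : Mat n} {a : ℝ} (h : ((a : ℂ) • C' - C).PosSemidef) (c : Fin n → ℂ) :
    qf C c ≤ a * qf C' c := by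
  have h1 := qf_nonneg h c
  simp only [qf, Matrix.sub_apply, Matrix.smul_apply, smul_eq_mul, sub_mul,
    Finset.sum_sub_distrib, mul_assoc, ← Finset.mul_sum, Complex.sub_re,
    Complex.re_ofReal_mul] at h1 ⊢
  linarith

theorem qf_half {C : Mat n} (h : C.PosSemidef) (b t : Fin n → ℂ) :
    qf C (fun k => -((b k + t k) / 2)) ≤ qf C b + qf C t := by
  have h1 := qf_nonneg h fun k => (b k - t k) / 2
  have h2 := qf_nonneg h b
  have h3 := qf_nonneg h t
  have e : qf C (fun k => -((b k + t k) / 2)) + qf C (fun k => (b k - t k) / 2) =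
      (qf C b + qf C t) / 2 := by
    rw [eq_div_iff two_ne_zero, mul_two]
    simp only [qf, ← Complex.add_re, ← Finset.sum_add_distrib]
    refine congrArg Complex.re (Finset.sum_congr rfl fun k _ => Finset.sum_congr rfl fun l _ => ?_)
    simp only [star_neg, star_div₀, star_add, star_sub, star_ofNat]
    ring
  linarith

theorem n12_ip (K T : Mat n) (D : Fin n → Mat n) :
    ip3 K K T (sy D) (sy D) = 2 * n12 K fun k l => (D l)ᴴ * T * D k := by
  have e1 : (n12 K fun k l => (D l)ᴴ * T * D k) = ip3 K K T (sy D) D := by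
    simp only [n12, ip3, sy_mul, Matrix.mul_assoc]
  have e2 : ∀ U : Fin n → Mat n, ip3 K K T (sy D) U = ∑ p : Fin n × Fin n, ∑ q : Fin n × Fin n,
      K p.1 p.2 * K q.1 q.2 * ∑ c, star (U p.2 c q.2) * ∑ d, T c d * sy D p.1 d q.1 := fun U => by
    simp only [ip3, Fintype.sum_prod_type, Matrix.mul_assoc]
    simp only [Matrix.trace, Matrix.diag_apply, Matrix.mul_apply, Matrix.conjTranspose_apply,
      Finset.mul_sum, mul_assoc]
  rw [e1, e2, e2, two_mul]
  conv_rhs => enter [2]; rw [Finset.sum_comm]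
  simp only [← Finset.sum_add_distrib]
  refine Finset.sum_congr rfl fun p _ => Finset.sum_congr rfl fun q _ => ?_
  simp only [sy_apply, star_add, add_mul, Finset.sum_add_distrib, mul_add, add_comm (D q.1 _ p.1)]
  ring

variable {G H T : E n → Mat n} {z : E n}

theorem dsc_sq (h : HS68.Loc T z) (v u : E n) :
    dsc T z v (-((∑ k, v k • gam T k z) *ᵥ v) - u) =
      dsc T z v (-((∑ k, v k • gam T k z) *ᵥ v)) + star u ⬝ᵥ T z *ᵥ u := by
  have e1 : ∑ k, v k • dM k T z = T z * ∑ k, v k • gam T k z := by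
    simp only [h.dM_eq, Matrix.mul_sum, Matrix.mul_smul]
  have e2 : ∑ l, star (v l) • dMb l T z = (∑ k, v k • gam T k z)ᴴ * T z := by
    simp only [h.dMb_eq, Matrix.conjTranspose_sum, Matrix.conjTranspose_smul, Matrix.sum_mul,
      Matrix.smul_mul]
  rw [dsc, dsc, e1, e2]
  simp only [star_sub, star_neg, sub_dotProduct, neg_dotProduct, Matrix.mulVec_sub,
    Matrix.mulVec_neg, dotProduct_sub, dotProduct_neg, Matrix.star_mulVec,
    ← Matrix.dotProduct_mulVec, Matrix.mulVec_mulVec, Matrix.mul_assoc]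
  ring

/-- The energy is bounded by the sum of the two contractions. -/
theorem es_le (hG : (G z).PosDef) (h : HS68.Loc T z) (hd : ∀ v w, 0 ≤ (dsc T z v w).re) :
    (ip3 (G z)⁻¹ (G z)⁻¹ (T z) (sy fun k => df G T k z) (sy fun k => df G T k z)).re ≤
      2 * (n12 (G z)⁻¹ fun k l => nf G T k l z).re := by
  have h1 := roy (fun k l => (df G T l z)ᴴ * T z * df G T k z - nf G T k l z)
    hG.inv.posSemidef fun v => by
      have e : ∑ k, ∑ l, v k * star (v l) * (star v ⬝ᵥ ((df G T l z)ᴴ * T z * df G T k z) *ᵥ v) =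
          star ((∑ k, v k • df G T k z) *ᵥ v) ⬝ᵥ T z *ᵥ ((∑ k, v k • df G T k z) *ᵥ v) := by
        rw [← quad_pb]
        simp only [Matrix.conjTranspose_sum, Matrix.conjTranspose_smul, Matrix.sum_mul,
          Matrix.smul_mul, Matrix.mul_smul, Matrix.sum_mulVec, dotProduct_sum,
          Matrix.smul_mulVec, dotProduct_smul, smul_eq_mul, Finset.mul_sum, mul_assoc]
      have e3 : -((∑ k, v k • gam G k z) *ᵥ v) =
          -((∑ k, v k • gam T k z) *ᵥ v) - (∑ k, v k • df G T k z) *ᵥ v := by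
        simp only [df, smul_sub, Finset.sum_sub_distrib, Matrix.sub_mulVec]
        abel
      simp only [Matrix.sub_mulVec, dotProduct_sub, mul_sub, Finset.sum_sub_distrib]
      rw [e, quart_nf, e3, dsc_sq h, Complex.sub_re, Complex.add_re]
      linarith [hd v (-((∑ k, v k • gam T k z) *ᵥ v))]
  rw [n12_sub, Complex.sub_re] at h1
  rw [n12_ip]
  simp only [Complex.mul_re, Complex.re_ofNat, Complex.im_ofNat, zero_mul, sub_zero]
  linarith

/-- The torsion matrices, up to the sign. -/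
def tt (T : E n → Mat n) (k : Fin n) (z : E n) : Mat n :=
  Matrix.of fun i j => gam T j z i k - gam T k z i j

/-- The squared norm of the torsion. -/
def tn (H T : E n → Mat n) (z : E n) : ℝ :=
  (ip3 (H z)⁻¹ (T z)⁻¹ (T z) (fun k => tt T k z) fun k => tt T k z).re

theorem tn_cont (hH : HS68.Loc H z) (h : HS68.Loc T z) : ContinuousAt (tn H T) z := by
  have s : ∀ k, SmM (tt T k) z := fun k i j => (h.smM_gam j i k).sub (h.smM_gam k i j)
  exact (cd_re (ContDiffAt.sum fun k _ => ContDiffAt.sum fun l _ => (hH.smM_inv k l).mul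
    (((h.smM_inv.mul (s l).ct).mul h.sm).mul (s k)).trace)).continuousAt

theorem point (hG : HS68.Loc G z) (hK : HS68.Kl G z) (hH : (H z).PosDef) (h : HS68.Loc T z)
    (hd : ∀ v w, 0 ≤ (dsc T z v w).re) :
    qf (H z)⁻¹ (fun k => dz k (fun w => ((G w)⁻¹ * T w).trace) z) ≤
      tn H T z * ((G z)⁻¹ * T z).trace.re ^ 2 + 2 * (((H z)⁻¹ * G z).trace.re *
        (((G z)⁻¹ * T z).trace.re * (n12 (G z)⁻¹ fun k l => nf G T k l z).re)) := by
  have e : (fun k => dz k (fun w => ((G w)⁻¹ * T w).trace) z) = fun k =>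
      -((((G z)⁻¹ * T z * sy (fun k => df G T k z) k).trace +
        ((G z)⁻¹ * T z * tt T k z).trace) / 2) := funext fun k => by
    have e1 : sy (fun k => df G T k z) k + tt T k z = (2 : ℂ) • df G T k z := by
      ext i j
      simp only [sy_apply, tt, df, Matrix.add_apply, Matrix.sub_apply, Matrix.of_apply,
        Matrix.smul_apply, smul_eq_mul, HS68.Loc.gam_symm hK i k j]
      ring
    rw [hG.dz_trace_quot h, ← Matrix.trace_add, ← Matrix.mul_add, e1, Matrix.mul_smul,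
      Matrix.trace_smul, smul_eq_mul]
    ring
  have pG := hG.pos.inv.posSemidef
  have pH := hH.inv.posSemidef
  have pT := h.pos.posSemidef
  have s0 := tr_nonneg hG.pos pT
  have t0 := tr_nonneg hH hG.pos.posSemidef
  have a1 := qf_le (inv_le_of_le hH hG.pos (le_tr_smul hH hG.pos.posSemidef le_rfl))
    fun k => ((G z)⁻¹ * T z * sy (fun k => df G T k z) k).trace
  have a2 : qf _ _ ≤ _ := grad_le pG pG pT (sy fun k => df G T k z)
  have a3 := es_le hG.pos h hd
  have a4 : qf _ _ ≤ _ := grad_le pH pG pT fun k => tt T k z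
  have a5 := ip3_le (a := 1) (c := 1) (C' := (H z)⁻¹) (H' := T z) pH pG pT
    (by simpa using Matrix.PosSemidef.zero)
    (inv_le_of_le hG.pos h.pos (le_tr_smul hG.pos pT le_rfl))
    (by simpa using Matrix.PosSemidef.zero) fun k => tt T k z
  rw [e]
  refine (qf_half pH _ _).trans ?_
  have a6 := mul_le_mul_of_nonneg_left (a2.trans (mul_le_mul_of_nonneg_left a3 s0)) t0
  have a7 := mul_le_mul_of_nonneg_left a5 s0
  rw [tn]
  nlinarith

theorem cpt_bound {X : Type} [TopologicalSpace X] [CompactSpace X] {P : ℝ → X → Prop}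
    (hm : ∀ a b x, a ≤ b → P a x → P b x) (h : ∀ y, ∃ C, ∀ᶠ x in 𝓝 y, P C x) :
    ∃ C, ∀ x, P C x := by
  obtain ⟨C, hC⟩ := isCompact_univ.induction_on (p := fun s : Set X => ∃ C, ∀ x ∈ s, P C x)
    ⟨0, fun _ hx => hx.elim⟩ (fun _ _ hs ⟨C, hC⟩ => ⟨C, fun x hx => hC x (hs hx)⟩)
    (fun _ _ ⟨a, ha⟩ ⟨b, hb⟩ => ⟨max a b, fun x hx => hx.elim
      (fun h1 => hm _ _ _ (le_max_left _ _) (ha x h1))
      fun h1 => hm _ _ _ (le_max_right _ _) (hb x h1)⟩)
    fun y _ => (h y).elim fun C hC => ⟨_, mem_nhdsWithin_of_mem_nhds hC, C, fun _ hx => hx⟩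
  exact ⟨C, fun x => hC x (mem_univ x)⟩

/-- The disc inequality holds in all charts. -/
theorem dsc_all {M : Mf n} {T : M.Fam (Mat n)} (hT : M.Ten T) {κ : M.X → ℝ} (h : Dsc M T κ)
    {e : M.Ch} (he : e ∈ M.C) {x : M.X} (hx : x ∈ e.source) (v w : E n) :
    κ x * nq (T e (e x)) v ^ 2 ≤ (dsc (T e) (e x) v w).re := by
  obtain ⟨c, hc, hy, h1⟩ := h x
  have a3 : (c ∘ e.symm) (e x) = c x := by rw [Function.comp, e.left_inv hx]
  refine disc_pb (T := T c) ((mTR n M).2.1 c hc e he x hy hx).1 (a3 ▸ hT.sm.at hc hy)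
    (BINV.ev_pb mTR hT hc he hy hx) ?_ v w
  rw [a3]
  exact h1

end Q68

open Q68 in
theorem st_QGR : St_QGR := by
  intro n M _ H h hH hh hD
  obtain ⟨C, hC⟩ := cpt_bound (X := M.X)
    (P := fun C x => ∃ e ∈ M.C, x ∈ e.source ∧ tn (H e) (h e) (e x) ≤ C)
    (fun a b x hab ⟨e, he, hx, h1⟩ => ⟨e, he, hx, h1.trans hab⟩) fun y => by
      have c := (tn_cont (HS68.met_loc hH (Mf.ch_mem y) (Mf.ch_tgt y))
        (HS68.met_loc hh (Mf.ch_mem y) (Mf.ch_tgt y))).comp
        ((M.ch y).continuousAt (Mf.mem_ch y))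
      refine ⟨tn (H (M.ch y)) (h (M.ch y)) (M.ch y y) + 1, ?_⟩
      filter_upwards [(M.ch y).open_source.mem_nhds (Mf.mem_ch y),
        c.eventually (gt_mem_nhds (lt_add_one _))] with x h1 h2
      exact ⟨_, Mf.ch_mem y, h1, h2.le⟩
  refine ⟨max C 2, one_le_two.trans (le_max_right _ _), fun G hG x => ?_⟩
  obtain ⟨e, he, hx, h1⟩ := hC x
  have hz := e.map_source hx
  obtain ⟨i1, i2, -⟩ := mINV n M G hG.toMet
  obtain ⟨j1, -⟩ := mINV n M H hH
  obtain ⟨-, e2, -⟩ := mHES n M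
  obtain ⟨-, q2, -, q4⟩ := st_QID n M G h hG hh.toForm
  have hs : M.Sm (M.tr G h) := (i1 h hh.toTen).2.1
  have hev : M.lc (M.tr G h) e =ᶠ[𝓝 (e x)] fun w => ((G e w)⁻¹ * h e w).trace :=
    ((i2 h hh.toForm).ev he hz).mono fun w hw => hw.1
  have d : ∀ k, dzb k (M.lc (M.tr G h) e) (e x) = star (dz k (M.lc (M.tr G h) e) (e x)) := fun k =>
    (star_dz_ofReal (cd_diff (hs.lc e he _ hz))).symm
  have t4 : M.gr H (M.tr G h) (M.tr G h) x =
      qf (H e (e x))⁻¹ fun k => dz k (fun w => ((G e w)⁻¹ * h e w).trace) (e x) := by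
    rw [Mf.gr, (j1 _ (e2 _ _ hs hs).1).1.at he hx]
    simp only [qf, Mf.ds, dd, d, Matrix.trace, Matrix.diag_apply, Matrix.mul_apply,
      Matrix.of_apply, dz_congr hev]
  have p := point (H := H e) (HS68.met_loc hG.toMet he hz) (HS68.clo_kl hG.toClo he hz)
    (hH.pos.at he hx) (HS68.met_loc hh he hz) fun v w => by
      simpa using dsc_all hh.toTen hD he hx v w
  have t1 := (i1 h hh.toTen).1.at he hx
  have t2 := (j1 G hG.toTen).1.at he hx
  have t3 := q2.at he hx
  have y0 : 0 ≤ M.y0 G h x := by simpa using q4 0 (fun _ => le_rfl) hD x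
  have s0 : 0 ≤ M.tr G h x := t1 ▸ tr_nonneg (hG.pos.at he hx) (hh.pos.at he hx).posSemidef
  have t0 : 0 ≤ M.tr H G x := t2 ▸ tr_nonneg (hH.pos.at he hx) (hG.pos.at he hx).posSemidef
  rw [← t4, ← t1, ← t2, ← t3] at p
  refine p.trans (add_le_add (mul_le_mul_of_nonneg_right (h1.trans (le_max_left _ _))
    (sq_nonneg _)) (mul_le_mul_of_nonneg_right (le_max_right _ _) ?_))
  positivity

end Pool.Agent.Lib.HQ
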