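import Pool.Agent.Lib.HQ.Blue
import Pool.Agent.Lib.HW95.Rel

/-! Project hq51: compactness in the mean. -/

open scoped Classical Topology
open Set MeasureTheory Filter

namespace Pool.Agent.Lib.HQ

open Pool.Agent.Lib.HS32

theorem st_QRE : St_QRE := by
  intro n M _ H ι l f C hH h θ hθ
  obtain ⟨i₀, h₀⟩ := h.exists
  obtain ⟨-, hfin, -, hv, hint, -⟩ := mMU n M H hH
  have key : ∀ i, ∃ g : M.X → ℝ, (M.Sm g ∧ (∀ x, |g x| ≤ C) ∧ ∫ x, M.gr H g g x ∂M.mu H ≤ C) ∧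
      ((M.Sm (f i) ∧ (∀ x, |f i x| ≤ C) ∧ ∫ x, M.gr H (f i) (f i) x ∂M.mu H ≤ C) → g = f i) :=
    fun i => by
      by_cases hi : M.Sm (f i) ∧ (∀ x, |f i x| ≤ C) ∧ ∫ x, M.gr H (f i) (f i) x ∂M.mu H ≤ C
      exacts [⟨f i, hi, fun _ => rfl⟩, ⟨f i₀, h₀, fun a => absurd a hi⟩]
  choose g hg he using key
  obtain ⟨I, hI, h1⟩ := HW95.rel hH l (u := g) (C := C + (M.mu H).real univ) (fun a => (hg a).1)
    (fun a x => ((hg a).2.1 x).trans (by linarith)) (fun a => by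
      obtain ⟨-, s, p, -⟩ := (mLAP n M _ _ (hg a).1 (hg a).1).2.2 H hH
      have i1 := hint ℝ _ s.continuous
      have h2 := integral_mono (hint ℝ _ s.continuous.sqrt) (i1.add (integrable_const 1))
        fun x => (by
          have h0 := (p x 0).2.2.2.2.2.2.1
          nlinarith [Real.sq_sqrt h0, sq_nonneg (√(M.gr H (g a) (g a) x) - 1)] :
          √(M.gr H (g a) (g a) x) ≤ M.gr H (g a) (g a) x + 1)
      rw [integral_add' i1 (integrable_const 1), integral_const, smul_eq_mul, mul_one] at h2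
      linarith [(hg a).2.2]) hθ
  refine ⟨_, inter_mem hI h, fun i hi j hj => ?_⟩
  rw [← he i hi.2, ← he j hj.2]
  exact h1 i hi.1 j hj.1

end Pool.Agent.Lib.HQ
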