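import Pool.Agent.Lib.HQ.Blue
import Pool.Agent.Lib.HW86.Step
import Pool.Agent.Lib.HS.All

/-! Project hq51: one step. -/

open scoped Topology ComplexOrder Matrix
open Set MeasureTheory Filter

noncomputable section

namespace Pool.Agent.Lib.HQ

open Pool.Agent.Lib.HS32 Pool.Agent.Lib.HS32.Mf

theorem st_QSA (hV : St_QVV) : St_QSA := by
  intro n M _ H B C ε δ θ p hn hH hB hN C1 hε hp hδ hθ
  obtain ⟨v1, -⟩ := hV n M H B hH hB hN
  obtain ⟨K, K0, hK⟩ := hp.sm.exists_bound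
  have ta : Tendsto (fun t : ℝ => (1 - δ) * t / (ε - t)) (𝓝[>] 0) (𝓝 0) := by
    have : ContinuousAt (fun t : ℝ => (1 - δ) * t / (ε - t)) 0 :=
      ContinuousAt.div (by fun_prop) (by fun_prop) (by simpa using hε.ne')
    simpa using this.tendsto.mono_left nhdsWithin_le_nhds
  have ev : ∀ A b : ℝ, 0 < b → ∀ᶠ t in 𝓝[>] (0 : ℝ), (1 - δ) * t / (ε - t) * A < b :=
    fun A b hb => (ta.mul_const A).eventually (gt_mem_nhds (by rwa [zero_mul]))
  filter_upwards [ev 1 θ hθ, ev 1 1 one_pos, ev (2 * Real.log C + (2 * K + n)) 1 one_pos,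
    ev (2 * ((1 + (2 * K + n)) * C * M.vv H)) θ hθ, Ioo_mem_nhdsGT hε] with t h1 h2 h3 h4 ht w φ hw
  have e0 : 0 < ε - t := sub_pos.2 ht.2
  have d1 : 0 < 1 - δ := by linarith [hδ.2]
  obtain ⟨a, ha⟩ : ∃ a, a = (1 - δ) * t / (ε - t) := ⟨_, rfl⟩
  rw [← ha] at h1 h2 h3 h4
  have a0 : 0 < a := ha ▸ div_pos (mul_pos d1 ht.1) e0
  have he : a * (ε - t) = (1 - δ) * t := by rw [ha, div_mul_cancel₀ _ e0.ne']
  obtain ⟨P, p1, p2, p3, p4⟩ :=
    W86.step HS.asAUBIN hn hH hp.sm hw.sol.sm hw.sol.kae a0 he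
  have e1 := v1 t P ⟨p1, p2⟩
  have e2 := v1 t w ⟨hw.sol.sm, hw.sol.kae⟩
  have V0 : 0 < M.vB H B t := e1 ▸ (mMU n M _ p2.toMet).2.2.2.1
  have up := hw.up
  have low := hw.low
  simp only [dn, e2, hw.sol.det] at up low
  have C0 : 0 < C := by linarith
  have eW : Real.exp (Real.log (C * M.vB H B t)) = C * M.vB H B t := Real.exp_log (by positivity)
  have hW : ∀ x, w x ≤ Real.log (C * M.vB H B t) := fun x => by
    rw [← Real.exp_le_exp, eW, ← div_le_iff₀ V0]
    exact (up x).trans (mul_le_of_le_one_right C0.le (Real.exp_le_one_iff.2 (hw.np x)))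
  have k := W86.step_low hH hw.sol p1 a0.le p3 hW hK
  simp only [add_assoc] at k
  refine ⟨a, P, a0, by linarith, ?_, ⟨p1, p2⟩, p4, fun x => ?_, ?_⟩
  · have := mul_nonneg (mul_nonneg hδ.1.le ht.1.le) (show 0 ≤ 1 - 2 * δ by linarith [hδ.2])
    have := mul_pos (mul_pos a0 ht.1) (show 0 < 1 + 2 * δ by linarith [hδ.1])
    rw [show a * ε = (1 - δ) * t + a * t by linarith]
    nlinarith
  · have k1 : φ x ≤ 2 * Real.log C + w x - Real.log (C * M.vB H B t) := by
      rw [← Real.exp_le_exp, Real.exp_sub, eW, Real.exp_add, two_mul, Real.exp_add,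
        Real.exp_log C0, mul_assoc, mul_div_mul_left _ _ C0.ne', mul_div_assoc]
      exact low x
    have k2 : Real.exp (φ x - 1) ≤
        Real.exp (-(a * (Real.log (C * M.vB H B t) - w x + (2 * K + n)))) := by
      rw [Real.exp_le_exp]
      nlinarith [mul_le_mul_of_nonneg_left k1 a0.le, hw.np x]
    have k3 := (mul_le_mul_of_nonneg_left k2 (Real.exp_pos (w x)).le).trans (k x)
    have k4 := mul_le_mul_of_nonneg_right (low x) (Real.exp_pos (φ x)).le
    have k5 : Real.exp (φ x) ≤ 3 * Real.exp (φ x - 1) := by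
      rw [Real.exp_sub, ← mul_div_assoc, le_div_iff₀ (Real.exp_pos 1), mul_comm]
      exact mul_le_mul_of_nonneg_right Real.exp_one_lt_three.le (Real.exp_pos _).le
    rw [dn, e1, two_mul, Real.exp_add]
    calc _ ≤ C * (Real.exp (w x) / M.vB H B t) * (3 * Real.exp (φ x - 1)) :=
          k4.trans (by gcongr)
      _ = 3 * C * (Real.exp (w x) * Real.exp (φ x - 1) / M.vB H B t) := by ring
      _ ≤ _ := by gcongr
  · have k1 := (W86.step_l1 hH hB hw.sol p1 p2 a0.le hW (by positivity) k).2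
    simp only [l1, dn, e1, e2, hw.sol.det, ← sub_div, abs_div, abs_of_pos V0]
    rw [integral_div, div_le_iff₀ V0]
    rw [eW] at k1
    refine k1.trans ?_
    rw [vv] at h4
    nlinarith [mul_le_mul_of_nonneg_right h4.le V0.le]

end Pool.Agent.Lib.HQ
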