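import Pool.Agent.Lib.HQ.B_QID
import Pool.Agent.Lib.HQ.B_QGR
import Pool.Agent.Lib.HQ.B_QVV
import Pool.Agent.Lib.HQ.B_QRE
import Pool.Agent.Lib.HQ.B_QWY
import Pool.Agent.Lib.HQ.B_QSA
import Pool.Agent.Lib.HQ.B_QSQ

/-! Project hq51: the metrics of small energy, without hypotheses. -/

namespace Pool.Agent.Lib.HQ

theorem aQSQ : St_QSQ := st_QSQ st_QID st_QRE (st_QWY st_QVV) (st_QSA st_QVV)

end Pool.Agent.Lib.HQ
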