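import Pool.Agent.Lib.HW68.Core
import Pool.Agent.Lib.RB.Blue
import Pool.Agent.Lib.GH.Defs

/-! Project hq51: Kähler metrics of small energy for a Hermitian metric of non-positive
holomorphic sectional curvature. Objects and blueprint. -/

open scoped Topology ContDiff ComplexOrder Matrix
open Set MeasureTheory Filter

noncomputable section

namespace Pool.Agent.Lib.HS32.Mf

variable {n : ℕ} (M : Mf n)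

/-- The volume of the class of `ε H + B - Ric H`. -/
def vB (H B : M.Fam (Mat n)) (ε : ℝ) : ℝ := ∫ x, M.dq H (ε • H + (B - M.ric H)) x ∂M.mu H

/-- The density of energy. -/
def y0 (G h : M.Fam (Mat n)) (x : M.X) : ℝ :=
  (M.ev (fun e z => HW68.n12 (G e z)⁻¹ fun k l => HW68.nf (G e) (h e) k l z) x).re

/-- The density of the normalized volume of `G`. -/
def dn (H G : M.Fam (Mat n)) (x : M.X) : ℝ := M.dq H G x / M.vv G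

/-- The distance in the mean. -/
def l1 (H : M.Fam (Mat n)) (f g : M.X → ℝ) : ℝ := ∫ x, |f x - g x| ∂M.mu H

/-- `p` is the potential of a Kähler metric in the class of `ε H + B - Ric H`. -/
structure Pot (H B : M.Fam (Mat n)) (ε : ℝ) (p : M.X → ℝ) : Prop where
  sm : M.Sm p
  kae : M.Kae (M.gB H B ε p)

/-- The class of `B - Ric H` is a limit of Kähler classes. -/
def NefB (H B : M.Fam (Mat n)) : Prop := ∀ ε : ℝ, 0 < ε → ∃ p, M.Pot H B ε p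

/-- The solution `w` of the twisted equation and its normalized potential `φ`. -/
structure Wy (H B : M.Fam (Mat n)) (C ε : ℝ) (w φ : M.X → ℝ) : Prop where
  sol : M.SolB H B ε w
  sm : M.Sm φ
  np : ∀ x, φ x ≤ 0
  zer : ∃ x, φ x = 0
  psh : M.Le 0 (C • H + M.hs φ)
  up : ∀ x, M.dn H (M.gB H B ε w) x ≤ C * Real.exp (φ x)
  low : ∀ x, Real.exp (φ x) ≤ C * M.dn H (M.gB H B ε w) x
  grad : ∫ x, M.gr H (M.dn H (M.gB H B ε w)) (M.dn H (M.gB H B ε w)) x ∂M.mu H ≤ C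

/-- A metric of small energy. -/
structure Good (H B h : M.Fam (Mat n)) (C δ ε : ℝ) (P w φ : M.X → ℝ) : Prop where
  pot : M.Pot H B ε P
  en : M.mn (M.gB H B ε P) (fun x => ε * M.y0 (M.gB H B ε P) h x) ≤ δ
  tw : M.mn (M.gB H B ε P) (fun x => ε * M.ip (M.gB H B ε P) h B x) ≤ δ
  sq : M.mn (M.gB H B ε P) (fun x => (ε * M.tr (M.gB H B ε P) h x) ^ 2) ≤ C
  low : ∀ x, Real.exp (2 * φ x) ≤ C * M.dn H (M.gB H B ε P) x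
  cl : M.l1 H (M.dn H (M.gB H B ε P)) (M.dn H (M.gB H B ε w)) ≤ δ

end Pool.Agent.Lib.HS32.Mf

namespace Pool.Agent.Lib.HQ

open Pool.Agent.Lib.SV (E)
open Pool.Agent.Lib.HS32

/-- The identity with the gradient term. -/
def St_QID : Prop := ∀ (n : ℕ) (M : Mf n) [M.Cpt] (G h : M.Fam (Mat n)), M.Kae G → M.Form h →
  M.Sm (M.y0 G h) ∧
  M.Rep (M.y0 G h) (fun e z => (HW68.n12 (G e z)⁻¹ fun k l => HW68.nf (G e) (h e) k l z).re) ∧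
  ∫ x, M.y0 G h x ∂M.mu G = -2 * ∫ x, M.ip G h (M.ric G) x ∂M.mu G ∧
  ∀ κ : M.X → ℝ, (∀ x, 0 ≤ κ x) → HW68.Dsc M h κ → ∀ x, κ x * M.tr G h x ^ 2 ≤ M.y0 G h x

/-- The gradient of the trace. -/
def St_QGR : Prop := ∀ (n : ℕ) (M : Mf n) [M.Cpt] (H h : M.Fam (Mat n)), M.Met H → M.Met h →
  HW68.Dsc M h 0 → ∃ C : ℝ, 1 ≤ C ∧ ∀ G, M.Kae G → ∀ x, M.gr H (M.tr G h) (M.tr G h) x ≤
    C * M.tr G h x ^ 2 + C * (M.tr H G x * (M.tr G h x * M.y0 G h x))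

/-- The volumes. -/
def St_QVV : Prop := ∀ (n : ℕ) (M : Mf n) [M.Cpt] (H B : M.Fam (Mat n)), M.Kae H → M.Clo B →
  M.NefB H B → (∀ ε p, M.Pot H B ε p → M.vv (M.gB H B ε p) = M.vB H B ε) ∧
    (∀ ε : ℝ, 0 < ε → (ε / 2) ^ n * M.vv H ≤ M.vB H B ε) ∧
    (∃ C : ℝ, 1 ≤ C ∧ ∀ ε ∈ Ioc (0 : ℝ) 1, M.vB H B ε ≤ C ∧
      ∀ p, M.Pot H B ε p → ∫ x, M.tr H (M.gB H B ε p) x ∂M.mu H ≤ C) ∧
    ∃ k : ℕ, k ≤ n ∧ (M.vB H B 0 ≤ 0 → 1 ≤ k) ∧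
      (∃ c : ℝ, 0 < c ∧ Tendsto (fun ε => M.vB H B ε / ε ^ k) (𝓝[>] 0) (𝓝 c)) ∧
      ∃ F : ℝ → ℝ, Tendsto F (𝓝[>] 0) (𝓝 k) ∧ ∀ ε p, 0 < ε → M.Pot H B ε p →
        M.mn (M.gB H B ε p) (fun x => ε * M.tr (M.gB H B ε p) H x) = F ε

/-- The compactness theorem of Rellich. -/
def St_QRE : Prop := ∀ (n : ℕ) (M : Mf n) [M.Cpt] (H : M.Fam (Mat n)) (ι : Type)
  (l : Ultrafilter ι) (f : ι → M.X → ℝ) (C : ℝ), M.Met H →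
  (∀ᶠ i in (l : Filter ι), M.Sm (f i) ∧ (∀ x, |f i x| ≤ C) ∧
    ∫ x, M.gr H (f i) (f i) x ∂M.mu H ≤ C) →
  ∀ θ : ℝ, 0 < θ → ∃ I ∈ l, ∀ i ∈ I, ∀ j ∈ I, M.l1 H (f i) (f j) ≤ θ

/-- The family of solutions. -/
def St_QWY : Prop := ∀ (n : ℕ) (M : Mf n) [M.Cpt] (H B : M.Fam (Mat n)), 0 < n → M.Kae H →
  M.Clo B → M.NefB H B → ∃ C : ℝ, 1 ≤ C ∧ ∀ ε ∈ Ioc (0 : ℝ) 1, ∃ w φ, M.Wy H B C ε w φ

/-- One step. -/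
def St_QSA : Prop := ∀ (n : ℕ) (M : Mf n) [M.Cpt] (H B : M.Fam (Mat n)) (C ε δ θ : ℝ)
  (p : M.X → ℝ), 0 < n → M.Kae H → M.Clo B → M.NefB H B → 1 ≤ C → 0 < ε → M.Pot H B ε p →
  δ ∈ Ioc (0 : ℝ) (1 / 2) → 0 < θ → ∀ᶠ ε' in 𝓝[>] (0 : ℝ), ∀ w φ, M.Wy H B C ε' w φ →
    ∃ (a : ℝ) (P : M.X → ℝ), 0 < a ∧ a ≤ θ ∧ ε' ≤ (1 + 2 * δ) * (a * ε) ∧ M.Pot H B ε' P ∧
      (M.All fun e z => M.ric (M.gB H B ε' P) e z =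
        (a • M.gB H B ε p + (δ * ε') • H + B - (1 + a) • M.gB H B ε' P) e z) ∧
      (∀ x, Real.exp (2 * φ x) ≤ 3 * C * M.dn H (M.gB H B ε' P) x) ∧
      M.l1 H (M.dn H (M.gB H B ε' P)) (M.dn H (M.gB H B ε' w)) ≤ θ

/-- The metrics of small energy. -/
def St_QSQ : Prop := ∀ (n : ℕ) (M : Mf n) [M.Cpt] (H B h : M.Fam (Mat n)) (l : Ultrafilter ℝ),
  0 < n → M.Kae H → M.Clo B → M.Le 0 B → M.NefB H B → M.Met h → HW68.Dsc M h 0 →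
  (l : Filter ℝ) ≤ 𝓝[>] 0 → ∃ (C : ℝ) (w φ : ℝ → M.X → ℝ), 1 ≤ C ∧
    (∀ ε ∈ Ioc (0 : ℝ) 1, M.Wy H B C ε (w ε) (φ ε)) ∧
    (∀ θ : ℝ, 0 < θ → ∃ I ∈ l, ∀ i ∈ I, ∀ j ∈ I,
      M.l1 H (M.dn H (M.gB H B i (w i))) (M.dn H (M.gB H B j (w j))) ≤ θ) ∧
    ∀ δ : ℝ, 0 < δ → ∀ᶠ ε in (l : Filter ℝ), ∃ P, M.Good H B h C δ ε P (w ε) (φ ε)

/-- The inequality of Poincaré for the logarithm. -/
def St_QPO : Prop := ∀ (n : ℕ) (M : Mf n) [M.Cpt] (H : M.Fam (Mat n)) (κ : M.X → ℝ) (C c : ℝ),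
  M.Kae H → Continuous κ → (∀ x, 0 ≤ κ x) → 1 ≤ C → 0 < c →
  (∀ δ : ℝ, 0 < δ → ∃ s Y t m m' φ : M.X → ℝ, M.Sm s ∧ Continuous Y ∧ Continuous t ∧
    Continuous m ∧ Continuous m' ∧ M.Sm φ ∧ M.Le 0 (C • H + M.hs φ) ∧ (∃ x, φ x = 0) ∧
    (∀ x, φ x ≤ 0 ∧ 0 < s x ∧ 0 ≤ Y x ∧ 0 ≤ t x ∧ m' x ≤ C ∧ Real.exp (2 * φ x) ≤ C * m x ∧
      κ x * s x ^ 2 ≤ Y x ∧ M.gr H s s x ≤ C * s x ^ 2 + C * (t x * (s x * Y x))) ∧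
    ∫ x, t x ∂M.mu H ≤ C ∧ ∫ x, m x ∂M.mu H = 1 ∧ ∫ x, m x * Y x ∂M.mu H ≤ δ ∧
    ∫ x, m x * s x ^ 2 ∂M.mu H ≤ C ∧ c ≤ ∫ x, m x * s x ∂M.mu H ∧ M.l1 H m m' ≤ δ) →
  ∀ x, κ x = 0

/-- The theorem. -/
def St_QVP : Prop := ∀ (n : ℕ) (M : Mf n) [M.Cpt] (H B h : M.Fam (Mat n)) (κ : M.X → ℝ), 0 < n →
  M.Kae H → M.Clo B → M.Le 0 B → M.NefB H B → M.Met h → Continuous κ → (∀ x, 0 ≤ κ x) →
  HW68.Dsc M h κ → (∃ x, 0 < κ x) → 0 < M.vB H B 0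

end Pool.Agent.Lib.HQ
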