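import Pool.Agent.Lib.HQ.Blue
import Pool.Agent.Lib.RB.B_RC0
import Pool.Agent.Lib.RB.B_RC1
import Pool.Agent.Lib.RB.B_RON

/-! Project hq51: the inequality of Poincaré for the logarithm. -/

open scoped Topology ContDiff ComplexOrder Matrix
open Set MeasureTheory Filter

noncomputable section

namespace Pool.Agent.Lib.HQ

open Pool.Agent.Lib.HS32 Pool.Agent.Lib.HS32.Mf Pool.Agent.Lib.RB.R95

namespace Q18

variable {n : ℕ} {M : Mf n} {H : M.Fam (Mat n)}

theorem gr_nn (hM : M.Met H) {f : M.X → ℝ} (hf : M.Sm f) (x : M.X) : 0 ≤ M.gr H f f x :=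
  (((mLAP n M f f hf hf).2.2 H hM).2.2.1 x 0).2.2.2.2.2.2.1

theorem gr_lg (hM : M.Met H) {s : M.X → ℝ} (hs : M.Sm s) (s0 : ∀ x, 0 < s x) (x : M.X) :
    M.gr H (fun y => Real.log (s y)) (fun y => Real.log (s y)) x = (s x)⁻¹ ^ 2 * M.gr H s s x := by
  have sl := hs.log fun y => (s0 y).ne'
  have hd : ∀ y, ContDiffAt ℝ ∞ Real.log (s y) := fun y => Real.contDiffAt_log.2 (s0 y).ne'
  rw [(((mLAP n M s _ hs sl).2.2 H hM).2.2.2.1 _ hd x).2,
    (((mLAP n M s _ hs sl).2.2 H hM).2.2.1 x 0).2.2.2.2.2.1,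
    (((mLAP n M s _ hs hs).2.2 H hM).2.2.2.1 _ hd x).2, Real.deriv_log]
  ring

theorem one_le {C A p m : ℝ} (h : -(2 * A) ≤ p) (h1 : Real.exp (2 * p) ≤ C * m) :
    1 ≤ Real.exp (4 * A) * (C * m) := by
  refine le_trans ?_ (mul_le_mul_of_nonneg_left h1 (Real.exp_pos _).le)
  rw [← Real.exp_add]
  exact Real.one_le_exp (by linarith)

theorem one_le' {A s : ℝ} (s0 : 0 < s) (h : -(2 * A) ≤ Real.log s) :
    1 ≤ Real.exp (2 * A) * s := by
  rw [← Real.exp_log s0, ← Real.exp_add]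
  exact Real.one_le_exp (by linarith)

/-- The gradient of the first factor. -/
theorem pt1 (hM : M.Met H) {K A : ℝ} (A0 : 0 < A) {φ : M.X → ℝ} (sφ : M.Sm φ) (x : M.X)
    (hk : deriv (kap A) (φ x) ^ 2 ≤ (K / A) ^ 2 ∧ (φ x < -(2 * A) → deriv (kap A) (φ x) = 0)) :
    √(M.gr H (fun y => kap A (φ y)) (fun y => kap A (φ y)) x) ≤ 1 / √A +
      √A * ((K / A) ^ 2 * Real.exp 2) * (Real.exp (φ x / A) * M.gr H φ φ x) := by
  have t0 := gr_nn hM sφ x
  rw [mul_assoc]
  refine young zero_le_one (by positivity) (Real.sqrt_pos.2 A0) ?_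
  rw [Real.sq_sqrt (gr_nn hM (sφ.comp fun y => kap_cd A (φ y)) x), gr_kap hM sφ, one_mul,
    ← mul_assoc]
  refine mul_le_mul_of_nonneg_right ?_ t0
  by_cases h : φ x < -(2 * A)
  · rw [hk.2 h, zero_pow two_ne_zero]
    positivity
  · rw [mul_assoc, ← Real.exp_add]
    refine hk.1.trans (le_mul_of_one_le_right (sq_nonneg _) (Real.one_le_exp ?_))
    rw [← neg_le_iff_add_nonneg', le_div_iff₀ A0]
    linarith

/-- The gradient of the second factor. -/
theorem pt2 (hM : M.Met H) {K A C Y t m : ℝ} (K0 : 0 < K) (A0 : 0 < A) (hC : 1 ≤ C)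
    {s : M.X → ℝ} (hs : M.Sm s) (s0 : ∀ x, 0 < s x) (x : M.X) (Y0 : 0 ≤ Y) (t0 : 0 ≤ t)
    (hk : deriv (kap A) (Real.log (s x)) ^ 2 ≤ (K / A) ^ 2 ∧
      (Real.log (s x) < -(2 * A) → deriv (kap A) (Real.log (s x)) = 0))
    (hm : 1 ≤ Real.exp (4 * A) * (C * m))
    (hg : M.gr H s s x ≤ C * s x ^ 2 + C * (t * (s x * Y))) :
    √(M.gr H (fun y => kap A (Real.log (s y))) (fun y => kap A (Real.log (s y))) x) ≤
      K / A * (C + t + C ^ 2 * Real.exp (8 * A) * (m * Y)) := by
  have sl := hs.log fun y => (s0 y).ne'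
  have C0 : 0 < C := one_pos.trans_le hC
  have m0 : 0 < m := (mul_pos_iff_of_pos_left C0).1
    ((mul_pos_iff_of_pos_left (Real.exp_pos _)).1 (one_pos.trans_le hm))
  have s1 := s0 x
  refine Real.sqrt_le_iff.2 ⟨by positivity, ?_⟩
  rw [gr_kap hM sl]
  by_cases h : Real.log (s x) < -(2 * A)
  · rw [hk.2 h, zero_pow two_ne_zero, zero_mul]
    positivity
  rw [mul_pow]
  refine mul_le_mul hk.1 ?_ (gr_nn hM sl x) (sq_nonneg _)
  rw [gr_lg hM hs s0]
  have h1 := one_le' s1 (not_lt.1 h)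
  have h2 : (s x)⁻¹ ≤ Real.exp (2 * A) := by
    rw [inv_le_iff_one_le_mul₀ s1]
    exact h1
  have h3 : Real.exp (2 * A) ≤ Real.exp (4 * A) := Real.exp_le_exp.2 (by linarith)
  have h4 : Real.exp (8 * A) = Real.exp (4 * A) * Real.exp (4 * A) := by
    rw [← Real.exp_add]
    ring_nf
  have h5 : (s x)⁻¹ * 1 ≤ Real.exp (4 * A) * (Real.exp (4 * A) * (C * m)) :=
    mul_le_mul (h2.trans h3) hm zero_le_one (Real.exp_pos _).le
  have h6 := mul_le_mul_of_nonneg_left h5 (show 0 ≤ C * (t * Y) by positivity)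
  have h7 : (s x)⁻¹ ^ 2 * (C * s x ^ 2 + C * (t * (s x * Y))) = C + C * (t * Y) * ((s x)⁻¹ * 1) := by
    field_simp
  have h8 : 0 ≤ C ^ 2 * Real.exp (8 * A) * (m * Y) := by positivity
  have h9 : C * (t * Y) * (Real.exp (4 * A) * (Real.exp (4 * A) * (C * m))) =
      t * (C ^ 2 * Real.exp (8 * A) * (m * Y)) := by
    rw [h4]
    ring
  refine (mul_le_mul_of_nonneg_left hg (sq_nonneg _)).trans ?_
  rw [h7]
  rw [h9] at h6
  generalize C ^ 2 * Real.exp (8 * A) * (m * Y) = W at h6 h8 ⊢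
  nlinarith [mul_nonneg t0 h8, mul_nonneg C0.le t0, mul_nonneg C0.le h8, sq_nonneg t, sq_nonneg W]

/-- The gradient of the cut-off function in the mean. -/
theorem grad [M.Cpt] (hM : M.Met H) {K A C D : ℝ} (K0 : 0 < K) (hA : 1 ≤ A) (hC : 1 ≤ C)
    (hk : ∀ t, deriv (kap A) t ^ 2 ≤ (K / A) ^ 2 ∧ (t < -(2 * A) → deriv (kap A) t = 0))
    {s Y t m φ : M.X → ℝ} (hs : M.Sm s) (cY : Continuous Y) (ct : Continuous t) (cm : Continuous m)
    (sφ : M.Sm φ) (h : ∀ x, 0 < s x ∧ 0 ≤ Y x ∧ 0 ≤ t x ∧ Real.exp (2 * φ x) ≤ C * m x ∧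
      M.gr H s s x ≤ C * s x ^ 2 + C * (t x * (s x * Y x)))
    (h5 : ∫ x, Real.exp (φ x / A) * M.gr H φ φ x ∂M.mu H ≤ D * A) (ht : ∫ x, t x ∂M.mu H ≤ C)
    (hY : C ^ 2 * Real.exp (8 * A) * ∫ x, m x * Y x ∂M.mu H ≤ 1) :
    ∫ x, √(M.gr H (fun y => kap A (φ y) * kap A (Real.log (s y)))
      (fun y => kap A (φ y) * kap A (Real.log (s y))) x) ∂M.mu H ≤
      ((M.mu H).real univ + K ^ 2 * Real.exp 2 * D) / √A +
        K * (C * (M.mu H).real univ + C + 1) / A := by
  obtain ⟨-, hfin, -, -, hint, -, -⟩ := mMU n M H hM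
  have A0 : 0 < A := one_pos.trans_le hA
  have C0 : 0 < C := one_pos.trans_le hC
  have sA : 0 < √A := Real.sqrt_pos.2 A0
  have sl := hs.log fun x => (h x).1.ne'
  have sa := sφ.comp fun y => kap_cd A (φ y)
  have sb := sl.comp fun y => kap_cd A (Real.log (s y))
  have k0 : ∀ t, 0 ≤ kap A t := fun t => Real.smoothTransition.nonneg _
  have k1 : ∀ t, kap A t ≤ 1 := fun t => Real.smoothTransition.le_one _
  have sg := fun f hf => ((mLAP n M f f hf hf).2.2 H hM).2.1
  have i1 := (hint ℝ _ (((sφ.div (sm_const A) fun _ => A0.ne').exp).mul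
    (sg φ sφ)).continuous).const_mul (√A * ((K / A) ^ 2 * Real.exp 2))
  have i2 := hint ℝ _ ct
  have i3 : Integrable (fun x => C ^ 2 * Real.exp (8 * A) * (m x * Y x)) (M.mu H) :=
    (hint ℝ _ (cm.mul cY)).const_mul _
  have i4 : Integrable (fun x => 1 / √A + √A * ((K / A) ^ 2 * Real.exp 2) *
    (Real.exp (φ x / A) * M.gr H φ φ x)) (M.mu H) := (integrable_const _).add i1
  have i6 : Integrable (fun x => C + t x) (M.mu H) := (integrable_const _).add i2
  have i5 : Integrable (fun x => K / A * (C + t x + C ^ 2 * Real.exp (8 * A) * (m x * Y x)))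
    (M.mu H) := (i6.add i3).const_mul _
  have h6 := integral_mono (hint ℝ _ (sg _ (sa.mul sb)).continuous.sqrt) (i4.add i5) fun x => by
    simp only [Pi.add_apply]
    obtain ⟨a1, a2, a3, a4, a5⟩ := h x
    refine (sq_mul hM sa sb x (k0 _) (k0 _)).trans (add_le_add ?_ ?_)
    · exact (mul_le_of_le_one_left (Real.sqrt_nonneg _) (k1 _)).trans (pt1 hM A0 sφ x (hk _))
    · have m0 : 0 < m x := (mul_pos_iff_of_pos_left C0).1 ((Real.exp_pos _).trans_le a4)
      by_cases h0 : kap A (φ x) = 0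
      · rw [h0, zero_mul]
        positivity
      exact (mul_le_of_le_one_left (Real.sqrt_nonneg _) (k1 _)).trans
        (pt2 hM K0 A0 hC hs (fun y => (h y).1) x a2 a3 (hk _) (one_le (kap_ne A0 h0) a4) a5)
  simp only [Pi.add_apply] at h6
  rw [integral_add i4 i5, integral_add (integrable_const _) i1, integral_const_mul,
    integral_const_mul, integral_add i6 i3, integral_add (integrable_const _) i2,
    integral_const_mul, integral_const, integral_const, smul_eq_mul, smul_eq_mul] at h6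
  have h7 := mul_le_mul_of_nonneg_left h5
    (show 0 ≤ √A * ((K / A) ^ 2 * Real.exp 2) by positivity)
  have e1 : √A * ((K / A) ^ 2 * Real.exp 2) * (D * A) = K ^ 2 * Real.exp 2 * D / √A := by
    rw [eq_div_iff sA.ne']
    have := Real.mul_self_sqrt A0.le
    field_simp
    rw [sq, this]
  have h8 := mul_le_mul_of_nonneg_left (add_le_add (add_le_add_right ht
    ((M.mu H).real univ * C)) hY) (show 0 ≤ K / A by positivity)
  rw [mul_one_div] at h6
  rw [add_div, mul_comm C, mul_div_right_comm K]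
  linarith

/-- The set where the cut-off function is one is large. -/
theorem big [M.Cpt] (hM : M.Met H) {A C c R δ : ℝ} (A0 : 0 < A) (hC : 1 ≤ C) (R0 : 0 < R)
    {s m m' φ : M.X → ℝ} (hs : M.Sm s) (cm : Continuous m) (cm' : Continuous m') (sφ : M.Sm φ)
    (h : ∀ x, 0 < s x ∧ 0 ≤ m x ∧ m' x ≤ C) (h1 : ∫ x, m x ∂M.mu H = 1)
    (h2 : ∫ x, m x * s x ^ 2 ∂M.mu H ≤ C) (h3 : c ≤ ∫ x, m x * s x ∂M.mu H)
    (h4 : M.l1 H m m' ≤ δ) :
    c ≤ Real.exp (-A) + C / R + R * δ + R * C *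
      ((M.mu H).real {x | kap A (φ x) * kap A (Real.log (s x)) = 1} +
        (M.mu H).real {x | φ x ≤ -A}) := by
  obtain ⟨-, hfin, -, -, hint, -, -⟩ := mMU n M H hM
  have sl := hs.log fun x => (h x).1.ne'
  have sp := (sφ.comp fun y => kap_cd A (φ y)).mul (sl.comp fun y => kap_cd A (Real.log (s y)))
  set U := {x | kap A (φ x) * kap A (Real.log (s x)) = 1} ∪ {x | φ x ≤ -A} with hU
  have mU : MeasurableSet U := (isClosed_eq sp.continuous continuous_const).measurableSet.union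
    (isClosed_le sφ.continuous continuous_const).measurableSet
  have i1 := (hint ℝ _ cm).const_mul (Real.exp (-A))
  have i2 : Integrable (fun x => R⁻¹ * (m x * s x ^ 2)) (M.mu H) :=
    (hint ℝ _ (cm.mul (hs.continuous.pow 2))).const_mul _
  have i3 : Integrable (fun x => R * |m x - m' x|) (M.mu H) :=
    (hint ℝ _ (cm.sub cm').abs).const_mul _
  have i4 : Integrable (fun x => R * C * U.indicator 1 x) (M.mu H) :=
    ((integrable_const (1 : ℝ)).indicator mU).const_mul _
  have i5 : Integrable (fun x => Real.exp (-A) * m x + R⁻¹ * (m x * s x ^ 2)) (M.mu H) := i1.add i2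
  have i6 : Integrable (fun x => Real.exp (-A) * m x + R⁻¹ * (m x * s x ^ 2) + R * |m x - m' x|)
    (M.mu H) := i5.add i3
  have h6 : ∫ x, m x * s x ∂M.mu H ≤ _ := integral_mono (hint ℝ _ (cm.mul hs.continuous))
    (i6.add i4) fun x => by
      simp only [Pi.add_apply]
      obtain ⟨a1, a2, a3⟩ := h x
      have b1 : 0 ≤ Real.exp (-A) * m x := by positivity
      have b2 : 0 ≤ R⁻¹ * (m x * s x ^ 2) := by positivity
      have b3 : 0 ≤ R * |m x - m' x| := by positivity
      by_cases hx : x ∈ U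
      · rw [indicator_of_mem hx, Pi.one_apply, mul_one]
        have b4 := mul_le_mul_of_nonneg_left
          (young (x := s x) (sq_nonneg (s x)) zero_le_one R0 (mul_one _).ge) a2
        have b5 := mul_le_mul_of_nonneg_left
          (show m x ≤ |m x - m' x| + C by linarith [le_abs_self (m x - m' x)]) R0.le
        have b6 : m x * (s x ^ 2 / R + R * 1) = R⁻¹ * (m x * s x ^ 2) + R * m x := by ring
        linarith
      · rw [indicator_of_notMem hx, mul_zero, add_zero]
        have b4 : s x ≤ Real.exp (-A) := by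
          rw [← Real.log_le_iff_le_exp a1]
          by_contra b5
          refine hx (Or.inl ?_)
          have b6 : -A ≤ φ x := (not_le.1 fun b7 => hx (Or.inr b7)).le
          rw [mem_ofPred_eq, kap_one A0 b6, kap_one A0 (not_le.1 b5).le, one_mul]
        have b5 := mul_le_mul_of_nonneg_left b4 a2
        linarith
  simp only [Pi.add_apply] at h6
  rw [integral_add i6 i4, integral_add i5 i3, integral_add i1 i2, integral_const_mul,
    integral_const_mul, integral_const_mul, integral_const_mul, integral_indicator_one mU, h1] at h6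
  have h7 := mul_le_mul_of_nonneg_left h2 (inv_pos.2 R0).le
  have h8 : R * ∫ x, |m x - m' x| ∂M.mu H ≤ R * δ := mul_le_mul_of_nonneg_left h4 R0.le
  have h9 := mul_le_mul_of_nonneg_left (measureReal_union_le (μ := M.mu H)
    {x | kap A (φ x) * kap A (Real.log (s x)) = 1} {x | φ x ≤ -A})
    (show 0 ≤ R * C by positivity)
  rw [div_eq_inv_mul]
  linarith

theorem pt3 {k B C A p s Y m : ℝ} (A0 : 0 < A) (hC : 1 ≤ C) (k0 : 0 ≤ k) (kB : k ≤ B) (s0 : 0 < s)
    (Y0 : 0 ≤ Y) (h1 : Real.exp (2 * p) ≤ C * m) (h2 : k * s ^ 2 ≤ Y) :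
    k ≤ C ^ 2 * Real.exp (8 * A) * (m * Y) + B * (1 - kap A p * kap A (Real.log s)) := by
  have C0 : 0 < C := one_pos.trans_le hC
  have m0 : 0 < m := (mul_pos_iff_of_pos_left C0).1 ((Real.exp_pos _).trans_le h1)
  have a0 : 0 ≤ C ^ 2 * Real.exp (8 * A) * (m * Y) := by positivity
  have a1 : kap A p * kap A (Real.log s) ≤ 1 := mul_le_one₀ (Real.smoothTransition.le_one _)
    (Real.smoothTransition.nonneg _) (Real.smoothTransition.le_one _)
  by_cases h : kap A p * kap A (Real.log s) = 0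
  · rw [h]
    linarith
  refine le_add_of_le_of_nonneg ?_ (mul_nonneg (k0.trans kB) (sub_nonneg.2 a1))
  have a2 := one_le (kap_ne A0 (left_ne_zero_of_mul h)) h1
  have a3 := one_le_pow₀ (n := 2) (one_le' s0 (kap_ne A0 (right_ne_zero_of_mul h)))
  have a4 : Real.exp (8 * A) = Real.exp (2 * A) ^ 2 * Real.exp (4 * A) := by
    rw [sq, ← Real.exp_add, ← Real.exp_add]
    ring_nf
  have a5 := mul_le_mul_of_nonneg_left h2 (sq_nonneg (Real.exp (2 * A)))
  have a6 := mul_le_mul_of_nonneg_left a3 k0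
  have a7 := mul_le_mul_of_nonneg_left (one_le_mul_of_one_le_of_one_le hC a2)
    (show 0 ≤ Real.exp (2 * A) ^ 2 * Y by positivity)
  rw [a4]
  linarith

end Q18

open Q18 in
theorem st_QPO : St_QPO := by
  intro n M _ H κ C c hH cκ κ0 hC c0 h
  have hM : M.Met H := hH.toMet
  obtain ⟨-, hfin, hop, -, hint, -, -⟩ := mMU n M H hM
  obtain ⟨D, D0, h1, -⟩ := RB.st_RC0 n M H C hH hC
  obtain ⟨K, K0, hk⟩ := kap_der
  obtain ⟨B, hB⟩ := (isCompact_range cκ).bddAbove
  have C0 : 0 < C := one_pos.trans_le hC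
  obtain ⟨A, A1, hA⟩ : ∃ A : ℕ → ℝ, (∀ j, 1 ≤ A j) ∧ Tendsto A atTop atTop :=
    ⟨fun j => j + 1, fun j => le_add_of_nonneg_left j.cast_nonneg,
      tendsto_atTop_add_const_right _ _ tendsto_natCast_atTop_atTop⟩
  have A0 : ∀ j, 0 < A j := fun j => one_pos.trans_le (A1 j)
  have W1 : ∀ j, 1 ≤ C ^ 2 * Real.exp (8 * A j) := fun j => one_le_mul_of_one_le_of_one_le
    (one_le_pow₀ hC) (Real.one_le_exp (mul_pos (by norm_num) (A0 j)).le)
  choose s Y t m m' φ ss cY ct cm cm' sφ hφ φx hp ht hm hY h2 h3 h4 using fun j : ℕ =>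
    h (1 / A j / (C ^ 2 * Real.exp (8 * A j))) (div_pos (one_div_pos.2 (A0 j)) (by positivity))
  have hW : ∀ j, C ^ 2 * Real.exp (8 * A j) * ∫ x, m j x * Y j x ∂M.mu H ≤ 1 / A j := fun j =>
    (le_div_iff₀' (one_pos.trans_le (W1 j))).1 (hY j)
  have sp := fun j => ((sφ j).comp fun y => kap_cd (A j) (φ j y)).mul
    (((ss j).log fun x => (hp j x).2.1.ne').comp fun y => kap_cd (A j) (Real.log (s j y)))
  have g1 := fun j => h1 (φ j) (sφ j) (hφ j) (fun x => (hp j x).1) (φx j) (A j) (A1 j)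
  have R0 : 0 < 2 * C / c := by positivity
  have lim := RB.st_RON n M H (fun j x => kap (A j) (φ j x) * kap (A j) (Real.log (s j x)))
    (c / 4 / (2 * C / c * C)) hH sp (fun j x => ⟨mul_nonneg (Real.smoothTransition.nonneg _)
      (Real.smoothTransition.nonneg _), mul_le_one₀ (Real.smoothTransition.le_one _)
      (Real.smoothTransition.nonneg _) (Real.smoothTransition.le_one _)⟩) (by positivity)
    (by
      have l1 := ((Real.tendsto_sqrt_atTop.comp hA).const_div_atTop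
        ((M.mu H).real univ + K ^ 2 * Real.exp 2 * D)).add
        (hA.const_div_atTop (K * (C * (M.mu H).real univ + C + 1)))
      rw [add_zero] at l1
      exact squeeze_zero (fun j => integral_nonneg fun x => Real.sqrt_nonneg _) (fun j =>
        grad hM K0 (A1 j) hC (fun u => hk _ u (A0 j)) (ss j) (cY j) (ct j) (cm j) (sφ j)
          (fun x => by
            obtain ⟨-, a1, a2, a3, -, a4, -, a5⟩ := hp j x
            exact ⟨a1, a2, a3, a4, a5⟩) (g1 j).2 (ht j)
          ((hW j).trans (div_le_one_of_le₀ (A1 j) (A0 j).le))) l1)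
    (by
      have l1 := ((Real.tendsto_exp_neg_atTop_nhds_zero.comp hA).add
        ((hA.const_div_atTop 1).const_mul (2 * C / c))).add
        ((hA.const_div_atTop D).const_mul (2 * C / c * C))
      rw [mul_zero, mul_zero, add_zero, add_zero] at l1
      filter_upwards [l1.eventually (ge_mem_nhds (show 0 < c / 4 by positivity))] with j hj
      have b1 := big hM (A0 j) hC R0 (ss j) (cm j) (cm' j) (sφ j) (fun x => ⟨(hp j x).2.1,
        ((mul_pos_iff_of_pos_left C0).1 ((Real.exp_pos _).trans_le (hp j x).2.2.2.2.2.1)).le,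
        (hp j x).2.2.2.2.1⟩) (hm j) (h2 j) (h3 j)
        ((h4 j).trans (div_le_self (one_div_pos.2 (A0 j)).le (W1 j)))
      have b2 := mul_le_mul_of_nonneg_left (g1 j).1 (mul_pos R0 C0).le
      have b3 : C / (2 * C / c) = c / 2 := by field_simp
      rw [div_le_iff₀' (mul_pos R0 C0)]
      simp only [Function.comp] at hj
      rw [mul_add, b3] at b1
      linarith)
  have l2 := (hA.const_div_atTop 1).add (lim.const_mul B)
  rw [mul_zero, add_zero] at l2
  have h0 : ∫ x, κ x ∂M.mu H ≤ 0 := by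
    refine ge_of_tendsto' l2 fun j => ?_
    have i1 : Integrable (fun x => C ^ 2 * Real.exp (8 * A j) * (m j x * Y j x)) (M.mu H) :=
      (hint ℝ _ ((cm j).mul (cY j))).const_mul _
    have i2 : Integrable (fun x => B * (1 - kap (A j) (φ j x) * kap (A j) (Real.log (s j x))))
      (M.mu H) := (hint ℝ _ (continuous_const.sub (sp j).continuous)).const_mul _
    have b1 := integral_mono (hint ℝ _ cκ) (i1.add i2) fun x => by
      obtain ⟨-, a1, a2, -, -, a4, a5, -⟩ := hp j x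
      exact pt3 (A0 j) hC (κ0 x) (hB (mem_range_self x)) a1 a2 a4 a5
    simp only [Pi.add_apply] at b1
    rw [integral_add i1 i2, integral_const_mul, integral_const_mul] at b1
    exact b1.trans (add_le_add_left (hW j) _)
  exact congrFun ((cκ.ae_eq_iff_eq (M.mu H) continuous_zero).1
    ((integral_eq_zero_iff_of_nonneg κ0 (hint ℝ _ cκ)).1
      (le_antisymm h0 (integral_nonneg κ0))))

end Pool.Agent.Lib.HQ
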