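import Pool.Agent.Lib.HQ.B_QSQ

/-! Project hq51: positivity of the volume. -/

open scoped Topology ContDiff ComplexOrder Matrix
open Set MeasureTheory Filter

noncomputable section

namespace Pool.Agent.Lib.HQ

open Pool.Agent.Lib.SV (E)
open Pool.Agent.Lib.HS32 Pool.Agent.Lib.HS32.Mf

open Q51 in
theorem st_QVP (hI : St_QID) (hGR : St_QGR) (hVV : St_QVV) (hSQ : St_QSQ) (hPO : St_QPO) :
    St_QVP := by
  intro n M _ H B h κ hn hH hB B0 hN hh hκ κ0 hD ⟨x₀, hx₀⟩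
  by_contra h0
  have hM := hH.toMet
  have hD0 : HW68.Dsc M h 0 := fun x => by
    obtain ⟨e, he, hx, k⟩ := hD x
    exact ⟨e, he, hx, fun v w => le_trans (by
      rw [Pi.zero_apply, zero_mul]
      exact mul_nonneg (κ0 x) (sq_nonneg _)) (k v w)⟩
  have hl := Ultrafilter.of_le (𝓝[>] (0 : ℝ))
  obtain ⟨C, w, φ, C1, hw, -, hG⟩ := hSQ n M H B h _ hn hH hB B0 hN hh hD0 hl
  obtain ⟨-, -, ⟨D, D1, hDt⟩, k, -, k1, -, F, hF, hFe⟩ := hVV n M H B hH hB hN
  obtain ⟨K, K1, hK⟩ := hGR n M H h hM hh hD0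
  obtain ⟨c, c0, hc, -⟩ := (mBD n M h hh).1 H hM.toForm
  have k2 : (1 / 2 : ℝ) < k := by
    have : (1 : ℝ) ≤ k := Nat.one_le_cast.2 (k1 (not_lt.1 h0))
    linarith
  have : Nonempty (Fin n) := ⟨⟨0, hn⟩⟩
  refine hx₀.ne' (hPO n M H κ (C + D + K) (1 / 2 / c) hH hκ κ0 (by linarith) (by positivity)
    (fun δ hδ => ?_) x₀)
  obtain ⟨ε, ⟨⟨P, hP⟩, e1⟩, e2⟩ := (((hG δ hδ).and ((hF.eventually (lt_mem_nhds k2)).filter_mono
    hl)).and (hl (Ioc_mem_nhdsGT one_pos))).exists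
  have hε : ε ∈ Ioc (0 : ℝ) 1 := e2
  have hW := wy_mono hM (hw ε hε) (show C ≤ C + D + K by linarith)
  rw [← hFe ε P hε.1 hP.pot] at e1
  have t1 := (hDt ε hε).2 P hP.pot
  obtain ⟨⟨-, g⟩, p1, -, p2, p3, p4⟩ := hP
  generalize M.gB H B ε P = G at *
  have gm := g.toMet
  obtain ⟨i1, -, -, i2⟩ := hI n M G h g hh.toForm
  have sS := ((mINV n M G gm).1 h hh.toTen).2.1
  have y0 : ∀ x, 0 ≤ M.y0 G h x := fun x => by simpa using i2 0 (fun _ => le_rfl) hD0 x
  refine ⟨fun x => ε * M.tr G h x, fun x => ε * M.y0 G h x, M.tr H G, M.dn H G, _, φ ε,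
    sS.const_mul ε, continuous_const.mul i1.continuous,
    ((mINV n M H hM).1 G gm.toTen).2.1.continuous, (dn_sm hM gm).continuous,
    (dn_sm hM hW.sol.kae.toMet).continuous, hW.sm, hW.psh, hW.zer, fun x => ?_, by linarith,
    dn_one hM gm, (mn_eq hM gm _).symm.trans_le p1,
    (mn_eq hM gm fun x => (ε * M.tr G h x) ^ 2).symm.trans_le (by linarith), ?_, p4⟩
  · have s0 : 0 < M.tr G h x := HS76.tr_pos (gm.ev_pos x) (hh.ev_pos x)
    have t0 := hM.tr_nonneg gm.nonneg x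
    have y1 := y0 x
    have ε0 := hε.1
    refine ⟨hW.np x, mul_pos ε0 s0, mul_nonneg ε0.le y1, t0, (hW.up x).trans
      (mul_le_of_le_one_right (by linarith) (Real.exp_le_one_iff.2 (hW.np x))), (p3 x).trans
      (mul_le_mul_of_nonneg_right (by linarith) (dn_pos hM gm x).le), ?_, ?_⟩
    · have h1 := mul_le_mul_of_nonneg_left (i2 κ κ0 hD x) (sq_nonneg ε)
      have h2 := mul_le_mul_of_nonneg_right hε.2 (mul_nonneg ε0.le y1)
      nlinarith
    · have c1 : ∀ y, ContDiffAt ℝ ∞ (fun s : ℝ => ε * s) (M.tr G h y) :=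
        fun y => contDiffAt_const.mul contDiffAt_id
      have s2 := sS.const_mul ε
      have q := fun f g hf hg => (mLAP n M f g hf hg).2.2 H hM
      rw [((q _ _ sS s2).2.2.2.1 _ c1 x).2, ((q _ _ sS s2).2.2.1 x 0).2.2.2.2.2.1,
        ((q _ _ sS sS).2.2.2.1 _ c1 x).2, ((hasDerivAt_id' (M.tr G h x)).const_mul ε).deriv,
        mul_one]
      have h1 := mul_le_mul_of_nonneg_left (hK G g x) (sq_nonneg ε)
      have h2 : 0 ≤ (C + D) * ((ε * M.tr G h x) ^ 2 +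
        M.tr H G x * (ε * M.tr G h x * (ε * M.y0 G h x))) := by positivity
      nlinarith
  · have hi := (mMU n M H hM).2.2.2.2.1 ℝ
    have cm := (dn_sm hM gm).continuous
    rw [mn_eq hM gm] at e1
    rw [div_le_iff₀' c0, ← integral_const_mul]
    refine e1.le.trans (integral_mono (hi _ (cm.fun_mul (continuous_const.mul
      ((mINV n M G gm).1 H hM.toTen).2.1.continuous))) ((hi _ (cm.fun_mul
        (sS.const_mul ε).continuous)).const_mul c) fun x => ?_)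
    have h1 := gm.tr_mono hc x
    rw [tr_smul] at h1
    nlinarith [mul_le_mul_of_nonneg_left h1 (mul_pos (dn_pos hM gm x) hε.1).le]

end Pool.Agent.Lib.HQ
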