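import Pool.Agent.Lib.HQ.Blue
import Pool.Agent.Lib.HW.Neg
import Pool.Agent.Lib.HW27.Blue
import Pool.Agent.Lib.HS.All

/-! Project hq51: from the statement to the manifold layer and back. -/

open scoped Classical Topology ContDiff ComplexOrder Matrix Manifold
open Set Complex Filter

noncomputable section

namespace Pool.Agent.Lib.HQ

open Pool.Agent.Lib.SV (E)
open Pool.Agent.Lib.HS32 Pool.Agent.Lib.GH Pool.Agent.Lib.HS.BBR Pool.Agent.Lib.RB.R32
open Pool.Agent.Lib.HW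

variable {n : ℕ} {X : Type} [TopologicalSpace X] [ChartedSpace (E n) X]
  [IsManifold 𝓘(ℂ, E n) ω X] [CompactSpace X] [T2Space X] [ConnectedSpace X]

theorem main_of (hVP : St_QVP) (hMO : HW27.St_WMO) (hBA : HW27.St_WBA) {g h : X → Mat n}
    (hg : Kaehler g) (hh : Hermitian h) (hK : CanNef g) (hc : ∀ x v, curvAt h x v v ≤ 0) {x₀ : X}
    (hx : ∀ v, v ≠ 0 → curvAt h x₀ v v < 0) : CanBig n X := by
  let M : Mf n := mf n X
  have : M.Cpt := ⟨‹T2Space X›, ‹CompactSpace X›, ‹ConnectedSpace X›⟩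
  refine big ?_
  rcases Nat.eq_zero_or_pos n with rfl | hn
  · exact big_zero M
  let c : M.X → M.Ch := chartAt (M := X) (E n)
  have hm : ∀ x, c x ∈ M.C := ch_mem (X := X)
  have hs : ∀ x, x ∈ (c x).source := mem_chart_source (M := X) (E n)
  have hk : M.Met (fam h) := (fam_ok hh).1
  have hH : M.Kae (fam g) := kae hg
  have hN := nef hg hK
  have e1 : ∀ x v, curvAt h x v v = (rm (fam h (c x)) (c x x) v v v v).re := fun x v =>
    congrArg Complex.re (rm_curv (hk.sm.at (hm x) (hs x)) (hk.det_ne.at (hm x) (hs x)) v v).symm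
  have h1 := loc (hk.sm.at (hm x₀) (hs x₀)) (hk.det_ne.at (hm x₀) (hs x₀)) fun v hv =>
    e1 x₀ v ▸ hx v hv
  obtain ⟨A, hA, U, hU, hAU⟩ := mem_nhds_prod_iff.1 h1
  obtain ⟨t, tA, t0⟩ := ((show ∀ᶠ t in 𝓝[>] (0 : ℝ), t ∈ A from nhdsWithin_le_nhds hA).and
    self_mem_nhdsWithin).exists
  obtain ⟨O, o1, o2, o3⟩ := mem_nhds_iff.1 (inter_mem ((c x₀).open_source.mem_nhds (hs x₀))
    ((c x₀).continuousAt (hs x₀) hU))
  obtain ⟨χ, c1, c2, c3, c4⟩ := (mCOV n M).2.2.2.2.2 {x₀} O isClosed_singleton o2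
    (singleton_subset_iff.2 o3)
  have t1 : 0 < t := t0
  have hD : HW68.Dsc M (fam h) fun x => t * χ x := fun x => by
    by_cases k : χ x = 0
    · refine ⟨c x, hm x, hs x, fun v w => le_trans ?_
        (HW68.dsc_ge (HS68.met_loc hk (hm x) ((c x).map_source (hs x))) v w)⟩
      have k1 := (e1 x v).symm.trans_le (hc x v)
      beta_reduce
      rw [k, mul_zero, zero_mul]
      exact neg_nonneg.2 k1
    · obtain ⟨k1, k2⟩ := o1 (c4 (subset_tsupport _ k))
      refine ⟨c x₀, hm x₀, k1, fun v w => le_trans ?_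
        (HW68.dsc_ge (HS68.met_loc hk (hm x₀) ((c x₀).map_source k1)) v w)⟩
      have k3 := hAU (mk_mem_prod tA k2) v
      have k4 := mul_le_mul_of_nonneg_right (mul_le_of_le_one_right t1.le (c2 x).2)
        (sq_nonneg (nq (fam h (c x₀) (c x₀ x)) v))
      beta_reduce at k3 ⊢
      linarith
  have hv := hVP n M (fam g) 0 (fam h) (fun x => t * χ x) hn hH Mf.clo_zero (Mf.Le.refl _) (fun ε hε => by
      obtain ⟨w, w1, w2⟩ := hN ε hε
      refine ⟨w, w1, ?_⟩
      rw [W86.gB_zero]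
      exact ⟨((hH.toClo.smul ε).sub ((mHES n M).2.2.2.2.2.2.2.2.1 _ hH.toMet)).add
        ((mHES n M).1 w w1), w2⟩)
    hk (continuous_const.mul c1.continuous) (fun x => mul_nonneg t1.le (c2 x).1) hD
    ⟨x₀, mul_pos t1 (one_pos.trans_eq (c3.self_of_nhdsSet x₀ rfl).symm)⟩
  refine HW27.big_of hMO hBA M hn hH (hN.sol HS.asAUBIN hn hH) ?_
  simpa only [Mf.vB, Mf.vol, zero_sub, ← sub_eq_add_neg] using hv

end Pool.Agent.Lib.HQ
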