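import Pool.Agent.Lib.HQ.Seq
import Pool.Agent.Lib.HQ.B_QPO
import Pool.Agent.Lib.HQ.B_QVP
import Pool.Agent.Lib.HQ.Br
import Pool.Agent.Lib.HW.All

/-! Project hq51: assembly. -/

open scoped Manifold ContDiff

namespace Pool.Agent.Lib.HQ

open Pool.Agent.Lib.SV (E)
open Pool.Agent.Lib.HS32 Pool.Agent.Lib.GH Pool.Agent.Lib.HW

theorem aQVP : St_QVP := st_QVP st_QID st_QGR st_QVV aQSQ st_QPO

theorem main (n : ℕ) (X : Type) [TopologicalSpace X] [ChartedSpace (E n) X]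
    [IsManifold 𝓘(ℂ, E n) ω X] [CompactSpace X] [T2Space X] [ConnectedSpace X] (g h : X → Mat n)
    (hg : Kaehler g) (hK : CanNef g) (hh : Hermitian h) (hc : ∀ x v, curvAt h x v v ≤ 0)
    (h0 : ∃ x, ∀ v, v ≠ 0 → curvAt h x v v < 0) : CanBig n X :=
  h0.elim fun _ hx => main_of aQVP morse HW27.st_WBA hg hh hK hc hx

end Pool.Agent.Lib.HQ
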